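import Pool.Agent.Helper9.CA.Kak

/-!
# Project FP (MP_0f6f3f_an), step 4: displacement functions on `SL(2, ℂ)`

A subadditive `SU(2)`-biinvariant function on `SL(2, ℂ)` is controlled on balls by its value at any
element outside `SU(2)`.
-/

set_option autoImplicit false
set_option linter.style.haveILetI false
set_option linter.unusedSectionVars false

open Filter Topology

namespace Pool.Agent.Helper7.FP

open Pool.Agent.Helper9.CA

/-- displacement functions -/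
structure Disp (D : S2 → ℝ) : Prop where
  nonneg : ∀ g, 0 ≤ D g
  sub : ∀ g h, D (g * h) ≤ D g + D h
  left : ∀ k ∈ KU, ∀ g, D (k * g) = D g
  right : ∀ k ∈ KU, ∀ g, D (g * k) = D g

theorem Disp.aR_eq {D : S2 → ℝ} (h : Disp D) {g : S2} {t : ℝ} (ht : 0 ≤ t)
    (hg : nsq g.1 = 2 * Real.cosh t) : D g = D (aR t) := by
  rw [biinv_eq h.left h.right g]
  congr 2
  rw [hg, mul_div_cancel_left₀ _ (two_ne_zero), Real.arcosh_cosh ht]

/-- the double coset of `aR t`, `t ≤ 2 r`, is in the square of the double coset of `aR r` -/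
theorem exists_K {r t : ℝ} (hr : 0 < r) (ht : 0 ≤ t) (htr : t ≤ 2 * r) :
    ∃ k ∈ KU, nsq (aR r * k * aR r).1 = 2 * Real.cosh t := by
  have h1 : 1 < Real.cosh (2 * r) := Real.one_lt_cosh.2 (by positivity)
  have h2 : 1 ≤ Real.cosh t := Real.one_le_cosh t
  have h3 : Real.cosh t ≤ Real.cosh (2 * r) := by
    rw [Real.cosh_le_cosh, abs_of_nonneg ht, abs_of_nonneg (by positivity)]
    exact htr
  set p : ℝ := (Real.cosh t - 1) / (Real.cosh (2 * r) - 1) with hp
  have hp0 : 0 ≤ p := div_nonneg (by linarith) (by linarith)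
  have hp1 : p ≤ 1 := by
    rw [hp, div_le_one (by linarith)]
    linarith
  have hn : Complex.normSq (Real.sqrt p : ℂ) + Complex.normSq (Real.sqrt (1 - p) : ℂ) = 1 := by
    rw [Complex.normSq_ofReal, Complex.normSq_ofReal, Real.mul_self_sqrt hp0,
      Real.mul_self_sqrt (by linarith)]
    ring
  refine ⟨ofCol (Real.sqrt p : ℂ) (Real.sqrt (1 - p) : ℂ) hn, ofCol_mem _ _ _, ?_⟩
  have h4 := nsq_aRkaR (ofCol_mem (Real.sqrt p : ℂ) (Real.sqrt (1 - p) : ℂ) hn) r r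
  have h5 : ‖(ofCol (Real.sqrt p : ℂ) (Real.sqrt (1 - p) : ℂ) hn).1 0 0‖ ^ 2 = p := by
    have : (ofCol (Real.sqrt p : ℂ) (Real.sqrt (1 - p) : ℂ) hn).1 0 0 = (Real.sqrt p : ℂ) := by
      simp [ofCol]
    rw [this, Complex.norm_real, Real.norm_eq_abs, sq_abs, Real.sq_sqrt hp0]
  have h6 : p * (Real.cosh (2 * r) - 1) = Real.cosh t - 1 := by
    rw [hp, div_mul_cancel₀ _ (by linarith)]
  rw [h5, sub_self, Real.cosh_zero, ← two_mul, h6] at h4
  linarith

theorem Disp.le_two {D : S2 → ℝ} (h : Disp D) {r t : ℝ} (hr : 0 < r) (ht : 0 ≤ t)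
    (htr : t ≤ 2 * r) : D (aR t) ≤ 2 * D (aR r) := by
  obtain ⟨k, hk, hn⟩ := exists_K hr ht htr
  rw [← h.aR_eq ht hn]
  have h1 := h.sub (aR r * k) (aR r)
  rw [h.right k hk] at h1
  linarith

theorem Disp.pow_le {D : S2 → ℝ} (h : Disp D) (g : S2) (n : ℕ) : D (g ^ (n + 1)) ≤ (n + 1) * D g := by
  induction n with
  | zero => simp
  | succ n ih =>
    rw [pow_succ]
    have h1 := h.sub (g ^ (n + 1)) g
    push_cast
    linarith

theorem aR_pow (t : ℝ) (n : ℕ) : aR t ^ n = aR (n * t) := by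
  induction n with
  | zero => rw [pow_zero, Nat.cast_zero, zero_mul, aR_zero]
  | succ n ih => rw [pow_succ, ih, ← aR_add]; congr 1; push_cast; ring

theorem Disp.le_mul {D : S2 → ℝ} (h : Disp D) {r T : ℝ} (hr : 0 < r) (hT : 0 ≤ T) (n : ℕ)
    (hn : T ≤ (n + 1) * (2 * r)) : D (aR T) ≤ (n + 1) * (2 * D (aR r)) := by
  have h1 : aR T = aR (T / (n + 1)) ^ (n + 1) := by
    rw [aR_pow]
    congr 1
    push_cast
    field_simp
  rw [h1]
  refine (h.pow_le _ n).trans ?_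
  refine mul_le_mul_of_nonneg_left (h.le_two hr (by positivity) ?_) (by positivity)
  rw [div_le_iff₀ (by positivity)]
  linarith

/-- **Growth.** -/
theorem growth {g0 : S2} (hg0 : g0 ∉ KU) (R : ℝ) : ∃ n : ℝ, 0 ≤ n ∧ ∀ D : S2 → ℝ, Disp D →
    ∀ g : S2, (N2 g : ℝ) ≤ R → D g ≤ n * D g0 := by
  obtain ⟨k, hk, k', hk', r, hr0, hg, hns⟩ := cartan g0
  have hr : 0 < r := by
    rcases hr0.eq_or_lt with h | h
    · exfalso
      apply hg0
      rw [hg, ← h, aR_zero, mul_one]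
      exact KU.mul_mem hk hk'
    · exact h
  obtain ⟨n, hn⟩ := exists_nat_ge (Real.arcosh (R ^ 2 / 2) / (2 * r))
  refine ⟨(n + 1) * 2, by positivity, ?_⟩
  intro D hD g hgR
  rw [hD.aR_eq hr0 hns]
  obtain ⟨a, ha, a', ha', T, hT0, hgT, hnT⟩ := cartan g
  rw [hD.aR_eq hT0 hnT]
  have hR0 : (0 : ℝ) ≤ N2 g := (N2 g).2
  have h1 : Real.cosh T ≤ R ^ 2 / 2 := by
    have h2 : (N2 g : ℝ) ^ 2 ≤ R ^ 2 := by gcongr
    rw [N2_sq, hnT] at h2
    linarith
  have h2 : T ≤ Real.arcosh (R ^ 2 / 2) := by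
    rw [← Real.arcosh_cosh hT0]
    exact (Real.arcosh_le_arcosh (Real.cosh_pos T) (lt_of_lt_of_le (Real.cosh_pos T) h1)).2 h1
  have h3 := hD.le_mul hr hT0 n (by
    rw [div_le_iff₀ (by positivity)] at hn
    linarith)
  linarith

end Pool.Agent.Helper7.FP
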