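import Mathlib

/-!
MP_0f6f3f_an, project FP, step 4: second order perturbation for the top eigenvalue of the
spherical average `P_K τ(g) P_K` under the tensor product.

`σ`, `τ` unitary representations, `B : E × E → F` an isometric equivariant product, `v` a unit
`K`-fixed eigenvector (eigenvalue `θ`) of the average in `E`, `v₂` a unit `K`-fixed eigenvector
(eigenvalue `θ₂`) of the average in `F`, with a gap `κ < 1` on the orthogonal complement of `v₂`.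
Then `2 (1 - θ) - (1 + 16 / (1 - κ)) (1 - θ)² ≤ 1 - θ₂`.
-/

namespace Pool.Agent.Helper7.FP

variable {G : Type*} [Group G] {E F : Type*}
  [NormedAddCommGroup E] [InnerProductSpace ℂ E] [CompleteSpace E]
  [NormedAddCommGroup F] [InnerProductSpace ℂ F]

theorem self_inner {E : Type*} [NormedAddCommGroup E] [InnerProductSpace ℂ E] (x : E) :
    inner ℂ x x = ((‖x‖ ^ 2 : ℝ) : ℂ) := by
  rw [inner_self_eq_norm_sq_to_K]
  simp

theorem rep_mul {E : Type*} [NormedAddCommGroup E] [InnerProductSpace ℂ E]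
    (σ : G →* (E ≃ₗᵢ[ℂ] E)) (a b : G) (x : E) : σ (a * b) x = σ a (σ b x) := by
  rw [map_mul]; rfl

theorem rep_inner {E : Type*} [NormedAddCommGroup E] [InnerProductSpace ℂ E]
    (σ : G →* (E ≃ₗᵢ[ℂ] E)) (a : G) (x y : E) : inner ℂ (σ a x) y = inner ℂ x (σ a⁻¹ y) := by
  have h3 := (σ a⁻¹).inner_map_map (σ a x) y
  rw [← rep_mul, inv_mul_cancel, map_one] at h3
  exact h3.symm

/-- if `L` intertwines the actions of `K` and `x` is `K`-fixed, then `y ↦ ⟪x, L y⟫` is represented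
by a `K`-fixed vector -/
theorem exists_fixed_rep (K : Subgroup G) (σ : G →* (E ≃ₗᵢ[ℂ] E)) (τ : G →* (F ≃ₗᵢ[ℂ] F))
    (L : E →L[ℂ] F) (hL : ∀ k ∈ K, ∀ y, τ k (L y) = L (σ k y))
    (x : F) (hx : ∀ k ∈ K, τ k x = x) :
    ∃ z : E, (∀ k ∈ K, σ k z = z) ∧ ∀ y, inner ℂ z y = inner ℂ x (L y) := by
  set f : E →L[ℂ] ℂ := (innerSL ℂ x).comp L with hf
  set z : E := (InnerProductSpace.toDual ℂ E).symm f with hz
  have h1 : ∀ y, inner ℂ z y = inner ℂ x (L y) := by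
    intro y
    rw [hz, InnerProductSpace.toDual_symm_apply]
    rfl
  refine ⟨z, ?_, h1⟩
  intro k hk
  apply ext_inner_right ℂ
  intro y
  have e1 : inner ℂ (σ k z) y = inner ℂ z (σ k⁻¹ y) := rep_inner σ k z y
  have e2 : inner ℂ x (L (σ k⁻¹ y)) = inner ℂ x (L y) := by
    rw [← hL k⁻¹ (K.inv_mem hk)]
    have h3 := (τ k⁻¹).inner_map_map x (L y)
    rw [hx k⁻¹ (K.inv_mem hk)] at h3
    exact h3
  rw [e1, h1, e2, h1]

/-- the inner product of a fixed vector and the product of a fixed vector with a vector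
orthogonal to all fixed vectors vanishes -/
theorem fixed_mixed (K : Subgroup G) (σ : G →* (E ≃ₗᵢ[ℂ] E)) (τ : G →* (F ≃ₗᵢ[ℂ] F))
    (L : E →L[ℂ] F) (hL : ∀ k ∈ K, ∀ y, τ k (L y) = L (σ k y))
    (u : E) (hu : ∀ x, (∀ k ∈ K, σ k x = x) → inner ℂ x u = 0)
    (x : F) (hx : ∀ k ∈ K, τ k x = x) : inner ℂ x (L u) = 0 := by
  obtain ⟨z, h2, h1⟩ := exists_fixed_rep K σ τ L hL x hx
  rw [← h1]
  exact hu z h2

theorem second_order (K : Subgroup G) (g : G) (hg : ∃ k ∈ K, ∃ k' ∈ K, g⁻¹ = k * g * k')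
    (σ : G →* (E ≃ₗᵢ[ℂ] E)) (τ : G →* (F ≃ₗᵢ[ℂ] F)) (B : E →L[ℂ] E →L[ℂ] F)
    (hB : ∀ x x' y y', inner ℂ (B x x') (B y y') = inner ℂ x y * inner ℂ x' y')
    (heq : ∀ s x y, τ s (B x y) = B (σ s x) (σ s y))
    (v : E) (hv : ‖v‖ = 1) (hvK : ∀ k ∈ K, σ k v = v) (θ : ℝ)
    (hθ : ∀ x, (∀ k ∈ K, σ k x = x) → inner ℂ x (σ g v) = (θ : ℂ) * inner ℂ x v)
    (v₂ : F) (hv₂ : ‖v₂‖ = 1) (hv₂K : ∀ k ∈ K, τ k v₂ = v₂) (θ₂ : ℝ)
    (hθ₂ : ∀ x, (∀ k ∈ K, τ k x = x) → inner ℂ x (τ g v₂) = (θ₂ : ℂ) * inner ℂ x v₂)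
    (κ : ℝ) (hκ : κ < 1)
    (gap : ∀ x, (∀ k ∈ K, τ k x = x) → inner ℂ v₂ x = 0 →
      (inner ℂ x (τ g x)).re ≤ κ * ‖x‖ ^ 2) :
    2 * (1 - θ) - (1 + 16 / (1 - κ)) * (1 - θ) ^ 2 ≤ 1 - θ₂ := by
  have hvv : inner ℂ v v = (1 : ℂ) := by
    rw [self_inner, hv]; norm_num
  have hv2v2 : inner ℂ v₂ v₂ = (1 : ℂ) := by
    rw [self_inner, hv₂]; norm_num
  -- bounds on `θ` and `θ₂`
  have hθ1 : |θ| ≤ 1 := by
    have h1 := hθ v hvK
    rw [hvv, mul_one] at h1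
    have h2 : ‖inner ℂ v (σ g v)‖ ≤ ‖v‖ * ‖σ g v‖ := norm_inner_le_norm _ _
    rw [h1, LinearIsometryEquiv.norm_map, hv, Complex.norm_real, Real.norm_eq_abs] at h2
    simpa using h2
  have hθ21 : |θ₂| ≤ 1 := by
    have h1 := hθ₂ v₂ hv₂K
    rw [hv2v2, mul_one] at h1
    have h2 : ‖inner ℂ v₂ (τ g v₂)‖ ≤ ‖v₂‖ * ‖τ g v₂‖ := norm_inner_le_norm _ _
    rw [h1, LinearIsometryEquiv.norm_map, hv₂, Complex.norm_real, Real.norm_eq_abs] at h2
    simpa using h2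
  set u : E := σ g v - (θ : ℂ) • v with hu
  have hu0 : ∀ x, (∀ k ∈ K, σ k x = x) → inner ℂ x u = 0 := by
    intro x hx
    rw [hu, inner_sub_right, inner_smul_right, hθ x hx, sub_self]
  have huv : inner ℂ v u = (0 : ℂ) := hu0 v hvK
  have hσ : σ g v = (θ : ℂ) • v + u := by rw [hu]; abel
  have hunorm : ‖u‖ ^ 2 = 1 - θ ^ 2 := by
    have h1 : ‖σ g v‖ ^ 2 = ‖(θ : ℂ) • v‖ ^ 2 + ‖u‖ ^ 2 := by
      rw [hσ]
      have h2 : inner ℂ ((θ : ℂ) • v) u = (0 : ℂ) := by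
        rw [inner_smul_left, huv, mul_zero]
      have h3 := norm_add_sq_eq_norm_sq_add_norm_sq_of_inner_eq_zero ((θ : ℂ) • v) u h2
      rw [sq, sq, sq]
      exact h3
    rw [LinearIsometryEquiv.norm_map, hv, norm_smul, hv, Complex.norm_real, Real.norm_eq_abs,
      mul_one, sq_abs] at h1
    linarith
  set w : F := B v v with hw
  have hwK : ∀ k ∈ K, τ k w = w := by
    intro k hk
    rw [hw, heq, hvK k hk]
  have hwnorm : ‖w‖ = 1 := by
    have h1 : inner ℂ w w = (1 : ℂ) := by rw [hw, hB, hvv, mul_one]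
    rw [self_inner] at h1
    have h2 : ‖w‖ ^ 2 = 1 := by exact_mod_cast h1
    have h3 := norm_nonneg w
    nlinarith
  set r : F := B u u with hr
  have hrnorm : ‖r‖ = 1 - θ ^ 2 := by
    have h1 : inner ℂ r r = ((‖u‖ ^ 2 : ℝ) : ℂ) * ((‖u‖ ^ 2 : ℝ) : ℂ) := by
      rw [hr, hB, self_inner]
    rw [self_inner] at h1
    have h2 : ‖r‖ ^ 2 = ‖u‖ ^ 2 * ‖u‖ ^ 2 := by exact_mod_cast h1
    have h3 : ‖r‖ = ‖u‖ ^ 2 := by
      have h4 : ‖r‖ ^ 2 = (‖u‖ ^ 2) ^ 2 := by rw [h2]; ring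
      exact (pow_left_inj₀ (norm_nonneg _) (by positivity) two_ne_zero).1 h4
    rw [h3, hunorm]
  -- the action of `g` on `w`, tested on fixed vectors
  have hact : ∀ x, (∀ k ∈ K, τ k x = x) →
      inner ℂ x (τ g w) = ((θ ^ 2 : ℝ) : ℂ) * inner ℂ x w + inner ℂ x r := by
    intro x hx
    have m1 : inner ℂ x (B v u) = (0 : ℂ) := by
      apply fixed_mixed K σ τ (B v) _ u hu0 x hx
      intro k hk y
      rw [heq, hvK k hk]
    have m2 : inner ℂ x (B u v) = (0 : ℂ) := by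
      have h1 := fixed_mixed K σ τ (B.flip v) (by
        intro k hk y
        show τ k (B y v) = B (σ k y) v
        rw [heq, hvK k hk]) u hu0 x hx
      exact h1
    have e1 : τ g w = ((θ ^ 2 : ℝ) : ℂ) • w + (θ : ℂ) • B v u + (θ : ℂ) • B u v + r := by
      rw [hw, heq, hσ]
      simp only [map_add, map_smul, add_apply,
        smul_apply, smul_add, smul_smul, hr]
      push_cast
      rw [sq]
      abel
    rw [e1]
    simp only [inner_add_right, inner_smul_right, m1, m2, mul_zero, add_zero]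
  have hwr : inner ℂ w r = (0 : ℂ) := by rw [hw, hr, hB, huv, mul_zero]
  have hww : inner ℂ w w = (1 : ℂ) := by rw [hw, hB, hvv, mul_one]
  set D : F := w - τ g w with hD
  have hwD : inner ℂ w D = ((1 - θ ^ 2 : ℝ) : ℂ) := by
    rw [hD, inner_sub_right, hact w hwK, hwr, hww]
    push_cast
    ring
  have hxD : ∀ x, (∀ k ∈ K, τ k x = x) → ‖inner ℂ x D‖ ≤ 2 * (1 - θ ^ 2) * ‖x‖ := by
    intro x hx
    have e1 : inner ℂ x D = ((1 - θ ^ 2 : ℝ) : ℂ) * inner ℂ x w - inner ℂ x r := by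
      rw [hD, inner_sub_right, hact x hx]
      push_cast
      ring
    have h0 : 0 ≤ 1 - θ ^ 2 := by
      rw [← hunorm]; positivity
    calc ‖inner ℂ x D‖ ≤ ‖((1 - θ ^ 2 : ℝ) : ℂ) * inner ℂ x w‖ + ‖inner ℂ x r‖ := by
          rw [e1]; exact norm_sub_le _ _
      _ ≤ (1 - θ ^ 2) * (‖x‖ * ‖w‖) + ‖x‖ * ‖r‖ := by
          rw [norm_mul, Complex.norm_real, Real.norm_eq_abs, abs_of_nonneg h0]
          exact add_le_add (mul_le_mul_of_nonneg_left (norm_inner_le_norm _ _) h0)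
            (norm_inner_le_norm _ _)
      _ = 2 * (1 - θ ^ 2) * ‖x‖ := by rw [hwnorm, hrnorm]; ring
  set a : ℂ := inner ℂ v₂ w with ha
  set y : F := w - a • v₂ with hy
  have hyK : ∀ k ∈ K, τ k y = y := by
    intro k hk
    rw [hy, map_sub, map_smul, hwK k hk, hv₂K k hk]
  have hv2y : inner ℂ v₂ y = (0 : ℂ) := by
    rw [hy, inner_sub_right, inner_smul_right, hv2v2, mul_one, ← ha, sub_self]
  have hyv2 : inner ℂ y v₂ = (0 : ℂ) := by
    rw [← inner_conj_symm, hv2y, map_zero]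
  -- `⟪v₂, τ g w⟫ = θ₂ ⟪v₂, w⟫`
  have hv2w : inner ℂ v₂ (τ g w) = (θ₂ : ℂ) * a := by
    obtain ⟨k, hk, k', hk', e⟩ := hg
    have e1 : inner ℂ v₂ (τ g w) = inner ℂ (τ g⁻¹ v₂) w := by
      rw [rep_inner, inv_inv]
    have e2 : inner ℂ (τ g⁻¹ v₂) w = inner ℂ (τ g v₂) w := by
      rw [e, rep_mul, rep_mul, hv₂K k' hk']
      have h3 := (τ k).inner_map_map (τ g v₂) w
      rw [hwK k hk] at h3
      exact h3
    rw [e1, e2, ← inner_conj_symm, hθ₂ w hwK, map_mul, inner_conj_symm, Complex.conj_ofReal]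
  have hv2D : inner ℂ v₂ D = ((1 - θ₂ : ℝ) : ℂ) * a := by
    rw [hD, inner_sub_right, hv2w]
    push_cast
    ring
  have hwdec : w = a • v₂ + y := by rw [hy]; abel
  have hsplit : (1 - θ ^ 2 : ℝ) = (1 - θ₂) * ‖a‖ ^ 2 + (inner ℂ y D).re := by
    have h1 : inner ℂ w D = inner ℂ (a • v₂) D + inner ℂ y D := by
      conv_lhs => rw [hwdec]
      rw [inner_add_left]
    rw [hwD, inner_smul_left, hv2D] at h1
    have h2 : (starRingEnd ℂ) a * (((1 - θ₂ : ℝ) : ℂ) * a)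
        = (((1 - θ₂) * ‖a‖ ^ 2 : ℝ) : ℂ) := by
      have h3 : (starRingEnd ℂ) a * a = ((‖a‖ ^ 2 : ℝ) : ℂ) := by
        rw [Complex.conj_mul']
        push_cast
        rfl
      calc (starRingEnd ℂ) a * (((1 - θ₂ : ℝ) : ℂ) * a)
          = ((1 - θ₂ : ℝ) : ℂ) * ((starRingEnd ℂ) a * a) := by ring
        _ = _ := by rw [h3]; push_cast; ring
    rw [h2] at h1
    have h4 := congrArg Complex.re h1
    rw [Complex.add_re, Complex.ofReal_re, Complex.ofReal_re] at h4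
    exact h4
  have hanorm : ‖a‖ ^ 2 ≤ 1 := by
    have h1 : ‖a‖ ≤ ‖v₂‖ * ‖w‖ := norm_inner_le_norm _ _
    rw [hv₂, hwnorm, mul_one] at h1
    have h2 := norm_nonneg a
    nlinarith
  -- the gap gives a bound on `y`
  have hyD : (1 - κ) * ‖y‖ ^ 2 ≤ (inner ℂ y D).re := by
    have h1 := gap y hyK hv2y
    have h2 : inner ℂ y D = inner ℂ y y - inner ℂ y (τ g y) := by
      have e1 : τ g w = a • τ g v₂ + τ g y := by
        conv_lhs => rw [hwdec]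
        rw [map_add, map_smul]
      rw [hD, inner_sub_right, e1, inner_add_right, inner_smul_right, hθ₂ y hyK, hyv2,
        mul_zero, mul_zero, zero_add]
      congr 1
      conv_lhs => rw [hwdec]
      rw [inner_add_right, inner_smul_right, hyv2, mul_zero, zero_add]
    have h3 : (inner ℂ y y : ℂ).re = ‖y‖ ^ 2 := by
      rw [self_inner, Complex.ofReal_re]
    rw [h2, Complex.sub_re, h3]
    linarith
  have hyD2 : (inner ℂ y D).re ≤ 2 * (1 - θ ^ 2) * ‖y‖ :=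
    (Complex.re_le_norm _).trans (hxD y hyK)
  have hκ' : 0 < 1 - κ := by linarith
  have hθle := abs_le.1 hθ1
  have hθ2le := abs_le.1 hθ21
  have h0 : 0 ≤ 1 - θ ^ 2 := by rw [← hunorm]; positivity
  have hyb : (1 - κ) * ‖y‖ ≤ 2 * (1 - θ ^ 2) := by
    rcases (norm_nonneg y).eq_or_lt with h | h
    · rw [← h]; linarith
    · have h1 : (1 - κ) * ‖y‖ * ‖y‖ ≤ 2 * (1 - θ ^ 2) * ‖y‖ := by
        calc (1 - κ) * ‖y‖ * ‖y‖ = (1 - κ) * ‖y‖ ^ 2 := by ring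
          _ ≤ _ := hyD.trans hyD2
      exact le_of_mul_le_mul_right h1 h
  have hfin : (1 - κ) * (inner ℂ y D).re ≤ 16 * (1 - θ) ^ 2 := by
    calc (1 - κ) * (inner ℂ y D).re ≤ (1 - κ) * (2 * (1 - θ ^ 2) * ‖y‖) :=
          mul_le_mul_of_nonneg_left hyD2 hκ'.le
      _ = 2 * (1 - θ ^ 2) * ((1 - κ) * ‖y‖) := by ring
      _ ≤ 2 * (1 - θ ^ 2) * (2 * (1 - θ ^ 2)) :=
          mul_le_mul_of_nonneg_left hyb (by linarith)
      _ = 4 * (1 + θ) ^ 2 * (1 - θ) ^ 2 := by ring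
      _ ≤ 16 * (1 - θ) ^ 2 := by
          apply mul_le_mul_of_nonneg_right _ (sq_nonneg _)
          nlinarith
  have hfin2 : (inner ℂ y D).re ≤ 16 / (1 - κ) * (1 - θ) ^ 2 := by
    rw [div_mul_eq_mul_div, le_div_iff₀ hκ']
    linarith
  have h5 : (1 - θ₂) * ‖a‖ ^ 2 ≤ 1 - θ₂ := by
    have : 0 ≤ 1 - θ₂ := by linarith
    nlinarith
  nlinarith

end Pool.Agent.Helper7.FP
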