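import Mathlib
import Pool.Agent.Helper7.FP.Sec

/-!
MP_0f6f3f_an, project FP, step 4 (assembled): the spectral gap of the spherical average in
degree `2^{-j} t₀` is at most `C / 2^j`.
-/

namespace Pool.Agent.Helper7.FP

open Filter Topology

/-- a sequence which at least doubles (up to a second order error) going backwards and tends to
zero decays like `2^{-j}` -/
theorem seq_rate (e : ℕ → ℝ) (he : ∀ j, 0 ≤ e j) (C : ℝ) (hC : 0 ≤ C)
    (h : ∀ j, 2 * e (j + 1) - C * e (j + 1) ^ 2 ≤ e j) (hlim : Tendsto e atTop (𝓝 0)) :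
    ∃ D : ℝ, 0 ≤ D ∧ ∀ j, e j ≤ D / 2 ^ j := by
  -- from some index on, `C e j ≤ 1 / 2`
  obtain ⟨J, hJ⟩ : ∃ J, ∀ j, J ≤ j → C * e j ≤ 1 / 2 := by
    have h1 : Tendsto (fun j => C * e j) atTop (𝓝 (C * 0)) := hlim.const_mul C
    rw [mul_zero] at h1
    have h2 := h1.eventually (Iic_mem_nhds (show (0 : ℝ) < 1 / 2 by norm_num))
    exact eventually_atTop.1 h2
  -- geometric decay with ratio `2 / 3`
  have h3 : ∀ i, e (J + i) ≤ e J * (2 / 3) ^ i := by
    intro i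
    induction i with
    | zero => simp
    | succ i ih =>
      have h4 := h (J + i)
      have h5 := hJ (J + i + 1) (by omega)
      have h6 := he (J + i + 1)
      have h7 : C * e (J + i + 1) ^ 2 ≤ 1 / 2 * e (J + i + 1) := by
        calc C * e (J + i + 1) ^ 2 = (C * e (J + i + 1)) * e (J + i + 1) := by ring
          _ ≤ _ := mul_le_mul_of_nonneg_right h5 h6
      have h8 : e (J + i + 1) ≤ 2 / 3 * e (J + i) := by linarith
      calc e (J + (i + 1)) = e (J + i + 1) := rfl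
        _ ≤ 2 / 3 * e (J + i) := h8
        _ ≤ 2 / 3 * (e J * (2 / 3) ^ i) := by gcongr
        _ = e J * (2 / 3) ^ (i + 1) := by ring
  -- refined decay
  have h9 : ∀ i, 2 ^ i * e (J + i)
      ≤ e J * Real.exp (∑ l ∈ Finset.range i, C * (e J * (2 / 3) ^ (l + 1))) := by
    intro i
    induction i with
    | zero => simp
    | succ i ih =>
      have h4 := h (J + i)
      have h5 := hJ (J + i + 1) (by omega)
      have h6 := he (J + i + 1)
      set x := e (J + i + 1) with hx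
      have hx0 : C * x ≤ 1 / 2 := h5
      -- `2 x ≤ e (J + i) (1 + C x)`
      have h10 : 2 * x ≤ e (J + i) * (1 + C * x) := by
        have h11 : 0 ≤ C * x := mul_nonneg hC h6
        have h12 : (2 * x - C * x ^ 2) * (1 + C * x) ≤ e (J + i) * (1 + C * x) :=
          mul_le_mul_of_nonneg_right h4 (by linarith)
        have h13 : 2 * x ≤ (2 * x - C * x ^ 2) * (1 + C * x) := by
          have h14 : (2 * x - C * x ^ 2) * (1 + C * x) - 2 * x = C * x ^ 2 * (1 - C * x) := by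
            ring
          have h15 : 0 ≤ C * x ^ 2 * (1 - C * x) := by
            apply mul_nonneg (mul_nonneg hC (sq_nonneg _))
            linarith
          linarith
        linarith
      have h16 : C * x ≤ C * (e J * (2 / 3) ^ (i + 1)) :=
        mul_le_mul_of_nonneg_left (h3 (i + 1)) hC
      have h17 : 1 + C * x ≤ Real.exp (C * (e J * (2 / 3) ^ (i + 1))) := by
        calc 1 + C * x ≤ Real.exp (C * x) := by
              have := Real.add_one_le_exp (C * x); linarith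
          _ ≤ _ := Real.exp_le_exp.2 h16
      calc (2 : ℝ) ^ (i + 1) * e (J + (i + 1)) = 2 ^ i * (2 * x) := by
            rw [pow_succ, hx, ← add_assoc]; ring
        _ ≤ 2 ^ i * (e (J + i) * (1 + C * x)) := by gcongr
        _ = (2 ^ i * e (J + i)) * (1 + C * x) := by ring
        _ ≤ (e J * Real.exp (∑ l ∈ Finset.range i, C * (e J * (2 / 3) ^ (l + 1))))
            * Real.exp (C * (e J * (2 / 3) ^ (i + 1))) := by
            apply mul_le_mul ih h17 _ (mul_nonneg (he J) (Real.exp_pos _).le)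
            have h11 : 0 ≤ C * x := mul_nonneg hC h6
            linarith
        _ = e J * Real.exp (∑ l ∈ Finset.range (i + 1), C * (e J * (2 / 3) ^ (l + 1))) := by
            rw [Finset.sum_range_succ, Real.exp_add]; ring
  have h18 : ∀ i, ∑ l ∈ Finset.range i, C * (e J * (2 / 3 : ℝ) ^ (l + 1)) ≤ 2 * (C * e J) := by
    intro i
    have h19 : ∑ l ∈ Finset.range i, C * (e J * (2 / 3 : ℝ) ^ (l + 1))
        = (C * e J) * (2 / 3) * ∑ l ∈ Finset.range i, (2 / 3 : ℝ) ^ l := by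
      rw [Finset.mul_sum]
      apply Finset.sum_congr rfl
      intro l _
      ring
    have h20 : ∑ l ∈ Finset.range i, (2 / 3 : ℝ) ^ l ≤ 3 := by
      have h21 := geom_sum_eq (show (2 / 3 : ℝ) ≠ 1 by norm_num) i
      rw [h21]
      have h22 : (0 : ℝ) ≤ (2 / 3) ^ i := by positivity
      have h23 : ((2 / 3 : ℝ) ^ i - 1) / (2 / 3 - 1) = 3 * (1 - (2 / 3) ^ i) := by ring
      rw [h23]
      linarith
    rw [h19]
    have h24 : 0 ≤ C * e J := mul_nonneg hC (he J)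
    calc (C * e J) * (2 / 3) * ∑ l ∈ Finset.range i, (2 / 3 : ℝ) ^ l
        ≤ (C * e J) * (2 / 3) * 3 := mul_le_mul_of_nonneg_left h20 (by positivity)
      _ = 2 * (C * e J) := by ring
  -- the constant
  set D1 : ℝ := 2 ^ J * (e J * Real.exp (2 * (C * e J))) with hD1
  have hD1' : 0 ≤ D1 := by
    have := he J
    positivity
  set D2 : ℝ := ∑ l ∈ Finset.range J, 2 ^ l * e l with hD2
  have hD2' : 0 ≤ D2 := Finset.sum_nonneg fun l _ => mul_nonneg (by positivity) (he l)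
  refine ⟨D1 + D2, add_nonneg hD1' hD2', fun j => ?_⟩
  rw [le_div_iff₀ (by positivity)]
  rcases lt_or_ge j J with hj | hj
  · have h25 : 2 ^ j * e j ≤ D2 :=
      Finset.single_le_sum (f := fun l => (2 : ℝ) ^ l * e l)
        (fun l _ => mul_nonneg (by positivity) (he l)) (Finset.mem_range.2 hj)
    linarith [mul_comm (e j) (2 ^ j)]
  · obtain ⟨i, rfl⟩ := Nat.exists_eq_add_of_le hj
    have h26 : 2 ^ i * e (J + i) ≤ e J * Real.exp (2 * (C * e J)) :=
      (h9 i).trans (mul_le_mul_of_nonneg_left (Real.exp_le_exp.2 (h18 i)) (he J))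
    have h27 : e (J + i) * 2 ^ (J + i) ≤ D1 := by
      calc e (J + i) * 2 ^ (J + i) = 2 ^ J * (2 ^ i * e (J + i)) := by rw [pow_add]; ring
        _ ≤ D1 := mul_le_mul_of_nonneg_left h26 (by positivity)
    linarith

variable {G : Type*} [Group G]

/-- displacement of a fixed eigenvector -/
theorem displacement {E : Type*} [NormedAddCommGroup E] [InnerProductSpace ℂ E]
    (K : Subgroup G) (g : G) (σ : G →* (E ≃ₗᵢ[ℂ] E)) (v : E) (hv : ‖v‖ = 1)
    (hvK : ∀ k ∈ K, σ k v = v) (θ : ℝ)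
    (hθ : ∀ x, (∀ k ∈ K, σ k x = x) → inner ℂ x (σ g v) = (θ : ℂ) * inner ℂ x v)
    (k : G) (hk : k ∈ K) (k' : G) (hk' : k' ∈ K) :
    ‖σ (k * g * k') v - v‖ ^ 2 = 2 * (1 - θ) := by
  have hvv : inner ℂ v v = (1 : ℂ) := by
    rw [self_inner, hv]; norm_num
  have h1 : inner ℂ v (σ (k * g * k') v) = (θ : ℂ) := by
    rw [rep_mul, rep_mul, hvK k' hk']
    have h2 := (σ k).inner_map_map v (σ g v)
    rw [hvK k hk] at h2
    rw [h2, hθ v hvK, hvv, mul_one]
  have h3 := norm_sub_sq (𝕜 := ℂ) (σ (k * g * k') v) v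
  have h4 : RCLike.re (inner ℂ (σ (k * g * k') v) v) = θ := by
    rw [← inner_conj_symm, h1]
    simp
  rw [h3, h4, LinearIsometryEquiv.norm_map, hv]
  ring

theorem rate (K : Subgroup G) (g : G) (hg : ∃ k ∈ K, ∃ k' ∈ K, g⁻¹ = k * g * k')
    (E F : ℕ → Type*)
    [∀ j, NormedAddCommGroup (E j)] [∀ j, InnerProductSpace ℂ (E j)] [∀ j, CompleteSpace (E j)]
    [∀ j, NormedAddCommGroup (F j)] [∀ j, InnerProductSpace ℂ (F j)]
    (σ : ∀ j, G →* (E j ≃ₗᵢ[ℂ] E j)) (τ : ∀ j, G →* (F j ≃ₗᵢ[ℂ] F j))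
    (B : ∀ j, E (j + 1) →L[ℂ] E (j + 1) →L[ℂ] F j)
    (hB : ∀ j x x' y y', inner ℂ (B j x x') (B j y y') = inner ℂ x y * inner ℂ x' y')
    (heq : ∀ j s x y, τ j s (B j x y) = B j (σ (j + 1) s x) (σ (j + 1) s y))
    (ι : ∀ j, E j →ₗᵢ[ℂ] F j) (hι : ∀ j s x, τ j s (ι j x) = ι j (σ j s x))
    (v : ∀ j, E j) (hv : ∀ j, ‖v j‖ = 1) (hvK : ∀ j, ∀ k ∈ K, σ j k (v j) = v j)
    (θ : ℕ → ℝ)
    (hθ : ∀ j x, (∀ k ∈ K, σ j k x = x) →
      inner ℂ x (σ j g (v j)) = (θ j : ℂ) * inner ℂ x (v j))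
    (κ : ℝ) (hκ : κ < 1)
    (gap : ∀ j x, (∀ k ∈ K, τ j k x = x) → inner ℂ (ι j (v j)) x = 0 →
      (inner ℂ x (τ j g x)).re ≤ κ * ‖x‖ ^ 2)
    (hlim : Tendsto θ atTop (𝓝 1)) :
    ∃ C : ℝ, 0 ≤ C ∧ (∀ j, 1 - θ j ≤ C / 2 ^ j) ∧
      ∀ j, ∀ k ∈ K, ∀ k' ∈ K, ‖σ j (k * g * k') (v j) - v j‖ ^ 2 ≤ 2 * C / 2 ^ j := by
  have hθ1 : ∀ j, 0 ≤ 1 - θ j := by
    intro j
    have hvv : inner ℂ (v j) (v j) = (1 : ℂ) := by
      rw [self_inner, hv]; norm_num
    have h1 := hθ j (v j) (hvK j)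
    rw [hvv, mul_one] at h1
    have h2 : ‖inner ℂ (v j) (σ j g (v j))‖ ≤ ‖v j‖ * ‖σ j g (v j)‖ := norm_inner_le_norm _ _
    rw [h1, LinearIsometryEquiv.norm_map, hv, Complex.norm_real, Real.norm_eq_abs] at h2
    have h3 := (abs_le.1 h2).2
    linarith
  have key : ∀ j, 2 * (1 - θ (j + 1)) - (1 + 16 / (1 - κ)) * (1 - θ (j + 1)) ^ 2
      ≤ 1 - θ j := by
    intro j
    refine second_order K g hg (σ (j + 1)) (τ j) (B j) (hB j) (heq j) (v (j + 1)) (hv _)
      (hvK _) (θ (j + 1)) (hθ _) (ι j (v j)) (by rw [LinearIsometry.norm_map, hv])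
      (fun k hk => by rw [hι, hvK j k hk]) (θ j) ?_ κ hκ (gap j)
    intro x hx
    obtain ⟨z, hz, h1⟩ := exists_fixed_rep K (σ j) (τ j) (ι j).toContinuousLinearMap
      (fun k _ y => hι j k y) x hx
    have h2 : ∀ y, inner ℂ z y = inner ℂ x (ι j y) := h1
    rw [hι, ← h2, ← h2]
    exact hθ j z hz
  have hκ' : 0 < 1 - κ := by linarith
  obtain ⟨D, hD, h1⟩ := seq_rate (fun j => 1 - θ j) hθ1 (1 + 16 / (1 - κ)) (by positivity) key
    (by simpa using hlim.const_sub 1)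
  refine ⟨D, hD, h1, ?_⟩
  intro j k hk k' hk'
  rw [displacement K g (σ j) (v j) (hv j) (hvK j) (θ j) (hθ j) k hk k' hk']
  have := h1 j
  calc 2 * (1 - θ j) ≤ 2 * (D / 2 ^ j) := by
        exact mul_le_mul_of_nonneg_left this (by norm_num)
    _ = 2 * D / 2 ^ j := by ring

end Pool.Agent.Helper7.FP
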