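import Mathlib
import Pool.Agent.Helper7.FP.Rate

/-!
MP_0f6f3f_an, project FP, step 4, real version: second order perturbation for the top eigenvalue of
the spherical average `P_K τ(g) P_K` on the real Hilbert spaces of selfadjoint elements, and the
resulting rate.

`σ`, `τ` orthogonal representations, `B : E × E → F` an equivariant product with
`‖B x x‖ = ‖x‖²`, `⟪B x x, B y y⟫ ≤ ⟪x, y⟫²`, `S` a linear subspace of `F` which contains all `B x x`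
(the selfadjoint elements), `v` a unit `K`-fixed eigenvector (eigenvalue `θ`) of the average in `E`,
`v₂ ∈ S` a unit `K`-fixed eigenvector (eigenvalue `θ₂`) of the average in `F`, with a gap `κ < 1` on
the `K`-fixed vectors of `S` orthogonal to `v₂`.
Then `2 (1 - θ) - (1 + 16 / (1 - κ)) (1 - θ)² ≤ 1 - θ₂`.
-/

namespace Pool.Agent.Helper7.FP

open Filter Topology

variable {G : Type*} [Group G]

theorem rep_mulR {E : Type*} [NormedAddCommGroup E] [InnerProductSpace ℝ E]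
    (σ : G →* (E ≃ₗᵢ[ℝ] E)) (a b : G) (x : E) : σ (a * b) x = σ a (σ b x) := by
  rw [map_mul]; rfl

theorem rep_innerR {E : Type*} [NormedAddCommGroup E] [InnerProductSpace ℝ E]
    (σ : G →* (E ≃ₗᵢ[ℝ] E)) (a : G) (x y : E) : inner ℝ (σ a x) y = inner ℝ x (σ a⁻¹ y) := by
  have h3 := (σ a⁻¹).inner_map_map (σ a x) y
  rw [← rep_mulR, inv_mul_cancel, map_one] at h3
  exact h3.symm

variable {E F : Type*}
  [NormedAddCommGroup E] [InnerProductSpace ℝ E] [CompleteSpace E]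
  [NormedAddCommGroup F] [InnerProductSpace ℝ F]

/-- if `L` intertwines the actions of `K` and `x` is `K`-fixed, then `y ↦ ⟪x, L y⟫` is represented
by a `K`-fixed vector -/
theorem exists_fixed_repR (K : Subgroup G) (σ : G →* (E ≃ₗᵢ[ℝ] E)) (τ : G →* (F ≃ₗᵢ[ℝ] F))
    (L : E →L[ℝ] F) (hL : ∀ k ∈ K, ∀ y, τ k (L y) = L (σ k y))
    (x : F) (hx : ∀ k ∈ K, τ k x = x) :
    ∃ z : E, (∀ k ∈ K, σ k z = z) ∧ ∀ y, inner ℝ z y = inner ℝ x (L y) := by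
  set f : E →L[ℝ] ℝ := (innerSL ℝ x).comp L with hf
  set z : E := (InnerProductSpace.toDual ℝ E).symm f with hz
  have h1 : ∀ y, inner ℝ z y = inner ℝ x (L y) := by
    intro y
    rw [hz, InnerProductSpace.toDual_symm_apply]
    rfl
  refine ⟨z, ?_, h1⟩
  intro k hk
  apply ext_inner_right ℝ
  intro y
  have e1 : inner ℝ (σ k z) y = inner ℝ z (σ k⁻¹ y) := rep_innerR σ k z y
  have e2 : inner ℝ x (L (σ k⁻¹ y)) = inner ℝ x (L y) := by
    rw [← hL k⁻¹ (K.inv_mem hk)]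
    have h3 := (τ k⁻¹).inner_map_map x (L y)
    rw [hx k⁻¹ (K.inv_mem hk)] at h3
    exact h3
  rw [e1, h1, e2, h1]

theorem fixed_mixedR (K : Subgroup G) (σ : G →* (E ≃ₗᵢ[ℝ] E)) (τ : G →* (F ≃ₗᵢ[ℝ] F))
    (L : E →L[ℝ] F) (hL : ∀ k ∈ K, ∀ y, τ k (L y) = L (σ k y))
    (u : E) (hu : ∀ x, (∀ k ∈ K, σ k x = x) → inner ℝ x u = 0)
    (x : F) (hx : ∀ k ∈ K, τ k x = x) : inner ℝ x (L u) = 0 := by
  obtain ⟨z, h2, h1⟩ := exists_fixed_repR K σ τ L hL x hx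
  rw [← h1]
  exact hu z h2

theorem second_order_real (K : Subgroup G) (g : G) (hg : ∃ k ∈ K, ∃ k' ∈ K, g⁻¹ = k * g * k')
    (σ : G →* (E ≃ₗᵢ[ℝ] E)) (τ : G →* (F ≃ₗᵢ[ℝ] F)) (B : E →L[ℝ] E →L[ℝ] F)
    (hB : ∀ x y, inner ℝ (B x x) (B y y) ≤ (inner ℝ x y) ^ 2)
    (hB1 : ∀ x, ‖B x x‖ = ‖x‖ ^ 2)
    (heq : ∀ s x y, τ s (B x y) = B (σ s x) (σ s y))
    (v : E) (hv : ‖v‖ = 1) (hvK : ∀ k ∈ K, σ k v = v) (θ : ℝ)
    (hθ : ∀ x, (∀ k ∈ K, σ k x = x) → inner ℝ x (σ g v) = θ * inner ℝ x v)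
    (S : Submodule ℝ F) (hS : ∀ x, B x x ∈ S)
    (v₂ : F) (hv₂S : v₂ ∈ S) (hv₂ : ‖v₂‖ = 1) (hv₂K : ∀ k ∈ K, τ k v₂ = v₂) (θ₂ : ℝ)
    (hθ₂ : ∀ x ∈ S, (∀ k ∈ K, τ k x = x) → inner ℝ x (τ g v₂) = θ₂ * inner ℝ x v₂)
    (κ : ℝ) (hκ : κ < 1)
    (gap : ∀ x ∈ S, (∀ k ∈ K, τ k x = x) → inner ℝ v₂ x = 0 →
      inner ℝ x (τ g x) ≤ κ * ‖x‖ ^ 2) :
    2 * (1 - θ) - (1 + 16 / (1 - κ)) * (1 - θ) ^ 2 ≤ 1 - θ₂ := by
  have hvv : inner ℝ v v = (1 : ℝ) := by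
    rw [real_inner_self_eq_norm_sq, hv]; norm_num
  have hv2v2 : inner ℝ v₂ v₂ = (1 : ℝ) := by
    rw [real_inner_self_eq_norm_sq, hv₂]; norm_num
  -- bounds on `θ` and `θ₂`
  have hθ1 : |θ| ≤ 1 := by
    have h1 := hθ v hvK
    rw [hvv, mul_one] at h1
    have h2 : |inner ℝ v (σ g v)| ≤ ‖v‖ * ‖σ g v‖ := abs_real_inner_le_norm _ _
    rw [h1, LinearIsometryEquiv.norm_map, hv] at h2
    simpa using h2
  have hθ21 : |θ₂| ≤ 1 := by
    have h1 := hθ₂ v₂ hv₂S hv₂K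
    rw [hv2v2, mul_one] at h1
    have h2 : |inner ℝ v₂ (τ g v₂)| ≤ ‖v₂‖ * ‖τ g v₂‖ := abs_real_inner_le_norm _ _
    rw [h1, LinearIsometryEquiv.norm_map, hv₂] at h2
    simpa using h2
  set u : E := σ g v - θ • v with hu
  have hu0 : ∀ x, (∀ k ∈ K, σ k x = x) → inner ℝ x u = 0 := by
    intro x hx
    rw [hu, inner_sub_right, real_inner_smul_right, hθ x hx, sub_self]
  have huv : inner ℝ v u = (0 : ℝ) := hu0 v hvK
  have hσ : σ g v = θ • v + u := by rw [hu]; abel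
  have hunorm : ‖u‖ ^ 2 = 1 - θ ^ 2 := by
    have h1 : ‖σ g v‖ ^ 2 = ‖θ • v‖ ^ 2 + ‖u‖ ^ 2 := by
      rw [hσ]
      have h2 : inner ℝ (θ • v) u = (0 : ℝ) := by
        rw [real_inner_smul_left, huv, mul_zero]
      have h3 := norm_add_sq_eq_norm_sq_add_norm_sq_of_inner_eq_zero (θ • v) u h2
      rw [sq, sq, sq]
      exact h3
    rw [LinearIsometryEquiv.norm_map, hv, norm_smul, hv, Real.norm_eq_abs,
      mul_one, sq_abs] at h1
    linarith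
  set w : F := B v v with hw
  have hwS : w ∈ S := hS v
  have hwK : ∀ k ∈ K, τ k w = w := by
    intro k hk
    rw [hw, heq, hvK k hk]
  have hwnorm : ‖w‖ = 1 := by rw [hw, hB1, hv]; norm_num
  set r : F := B u u with hr
  have hrnorm : ‖r‖ = 1 - θ ^ 2 := by rw [hr, hB1, hunorm]
  -- the action of `g` on `w`, tested on fixed vectors
  have hact : ∀ x, (∀ k ∈ K, τ k x = x) →
      inner ℝ x (τ g w) = θ ^ 2 * inner ℝ x w + inner ℝ x r := by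
    intro x hx
    have m1 : inner ℝ x (B v u) = (0 : ℝ) := by
      apply fixed_mixedR K σ τ (B v) _ u hu0 x hx
      intro k hk y
      rw [heq, hvK k hk]
    have m2 : inner ℝ x (B u v) = (0 : ℝ) := by
      have h1 := fixed_mixedR K σ τ (B.flip v) (by
        intro k hk y
        show τ k (B y v) = B (σ k y) v
        rw [heq, hvK k hk]) u hu0 x hx
      exact h1
    have e1 : τ g w = (θ ^ 2) • w + θ • B v u + θ • B u v + r := by
      rw [hw, heq, hσ]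
      simp only [map_add, map_smul, add_apply,
        smul_apply, smul_add, smul_smul, hr]
      rw [sq]
      abel
    rw [e1]
    simp only [inner_add_right, real_inner_smul_right, m1, m2, mul_zero, add_zero]
  have hwr : inner ℝ w r ≤ (0 : ℝ) := by
    have h1 := hB v u
    rw [huv] at h1
    simpa [hw, hr] using h1
  have hww : inner ℝ w w = (1 : ℝ) := by
    rw [real_inner_self_eq_norm_sq, hwnorm]; norm_num
  set D : F := w - τ g w with hD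
  have hwD : 1 - θ ^ 2 ≤ inner ℝ w D := by
    rw [hD, inner_sub_right, hact w hwK, hww]
    linarith
  have hxD : ∀ x, (∀ k ∈ K, τ k x = x) → |inner ℝ x D| ≤ 2 * (1 - θ ^ 2) * ‖x‖ := by
    intro x hx
    have e1 : inner ℝ x D = (1 - θ ^ 2) * inner ℝ x w - inner ℝ x r := by
      rw [hD, inner_sub_right, hact x hx]
      ring
    have h0 : 0 ≤ 1 - θ ^ 2 := by
      rw [← hunorm]; positivity
    calc |inner ℝ x D| ≤ |(1 - θ ^ 2) * inner ℝ x w| + |inner ℝ x r| := by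
          rw [e1]; exact abs_sub _ _
      _ ≤ (1 - θ ^ 2) * (‖x‖ * ‖w‖) + ‖x‖ * ‖r‖ := by
          rw [abs_mul, abs_of_nonneg h0]
          exact add_le_add (mul_le_mul_of_nonneg_left (abs_real_inner_le_norm _ _) h0)
            (abs_real_inner_le_norm _ _)
      _ = 2 * (1 - θ ^ 2) * ‖x‖ := by rw [hwnorm, hrnorm]; ring
  set a : ℝ := inner ℝ v₂ w with ha
  set y : F := w - a • v₂ with hy
  have hyS : y ∈ S := S.sub_mem hwS (S.smul_mem _ hv₂S)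
  have hyK : ∀ k ∈ K, τ k y = y := by
    intro k hk
    rw [hy, map_sub, map_smul, hwK k hk, hv₂K k hk]
  have hv2y : inner ℝ v₂ y = (0 : ℝ) := by
    rw [hy, inner_sub_right, real_inner_smul_right, hv2v2, mul_one, ← ha, sub_self]
  have hyv2 : inner ℝ y v₂ = (0 : ℝ) := by
    rw [real_inner_comm, hv2y]
  -- `⟪v₂, τ g w⟫ = θ₂ ⟪v₂, w⟫`
  have hv2w : inner ℝ v₂ (τ g w) = θ₂ * a := by
    obtain ⟨k, hk, k', hk', e⟩ := hg
    have e1 : inner ℝ v₂ (τ g w) = inner ℝ (τ g⁻¹ v₂) w := by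
      rw [rep_innerR, inv_inv]
    have e2 : inner ℝ (τ g⁻¹ v₂) w = inner ℝ (τ g v₂) w := by
      rw [e, rep_mulR, rep_mulR, hv₂K k' hk']
      have h3 := (τ k).inner_map_map (τ g v₂) w
      rw [hwK k hk] at h3
      exact h3
    rw [e1, e2, real_inner_comm, hθ₂ w hwS hwK, real_inner_comm]
  have hv2D : inner ℝ v₂ D = (1 - θ₂) * a := by
    rw [hD, inner_sub_right, hv2w]
    ring
  have hwdec : w = a • v₂ + y := by rw [hy]; abel
  have hsplit : inner ℝ w D = (1 - θ₂) * a ^ 2 + inner ℝ y D := by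
    have h1 : inner ℝ w D = inner ℝ (a • v₂) D + inner ℝ y D := by
      conv_lhs => rw [hwdec]
      rw [inner_add_left]
    rw [h1, real_inner_smul_left, hv2D]
    ring
  have hanorm : a ^ 2 ≤ 1 := by
    have h1 : |a| ≤ ‖v₂‖ * ‖w‖ := abs_real_inner_le_norm _ _
    rw [hv₂, hwnorm, mul_one] at h1
    have h2 := abs_nonneg a
    rw [← sq_abs]
    nlinarith
  -- the gap gives a bound on `y`
  have hyD : (1 - κ) * ‖y‖ ^ 2 ≤ inner ℝ y D := by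
    have h1 := gap y hyS hyK hv2y
    have h2 : inner ℝ y D = inner ℝ y y - inner ℝ y (τ g y) := by
      have e1 : τ g w = a • τ g v₂ + τ g y := by
        conv_lhs => rw [hwdec]
        rw [map_add, map_smul]
      rw [hD, inner_sub_right, e1, inner_add_right, real_inner_smul_right, hθ₂ y hyS hyK, hyv2,
        mul_zero, mul_zero, zero_add]
      congr 1
      conv_lhs => rw [hwdec]
      rw [inner_add_right, real_inner_smul_right, hyv2, mul_zero, zero_add]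
    rw [h2, real_inner_self_eq_norm_sq]
    linarith
  have hyD2 : inner ℝ y D ≤ 2 * (1 - θ ^ 2) * ‖y‖ :=
    (le_abs_self _).trans (hxD y hyK)
  have hκ' : 0 < 1 - κ := by linarith
  have hθle := abs_le.1 hθ1
  have hθ2le := abs_le.1 hθ21
  have h0 : 0 ≤ 1 - θ ^ 2 := by rw [← hunorm]; positivity
  have hyb : (1 - κ) * ‖y‖ ≤ 2 * (1 - θ ^ 2) := by
    rcases (norm_nonneg y).eq_or_lt with h | h
    · rw [← h]; linarith
    · have h1 : (1 - κ) * ‖y‖ * ‖y‖ ≤ 2 * (1 - θ ^ 2) * ‖y‖ := by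
        calc (1 - κ) * ‖y‖ * ‖y‖ = (1 - κ) * ‖y‖ ^ 2 := by ring
          _ ≤ _ := hyD.trans hyD2
      exact le_of_mul_le_mul_right h1 h
  have hfin : (1 - κ) * inner ℝ y D ≤ 16 * (1 - θ) ^ 2 := by
    calc (1 - κ) * inner ℝ y D ≤ (1 - κ) * (2 * (1 - θ ^ 2) * ‖y‖) :=
          mul_le_mul_of_nonneg_left hyD2 hκ'.le
      _ = 2 * (1 - θ ^ 2) * ((1 - κ) * ‖y‖) := by ring
      _ ≤ 2 * (1 - θ ^ 2) * (2 * (1 - θ ^ 2)) :=
          mul_le_mul_of_nonneg_left hyb (by linarith)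
      _ = 4 * (1 + θ) ^ 2 * (1 - θ) ^ 2 := by ring
      _ ≤ 16 * (1 - θ) ^ 2 := by
          apply mul_le_mul_of_nonneg_right _ (sq_nonneg _)
          nlinarith
  have hfin2 : inner ℝ y D ≤ 16 / (1 - κ) * (1 - θ) ^ 2 := by
    rw [div_mul_eq_mul_div, le_div_iff₀ hκ']
    linarith
  have h5 : (1 - θ₂) * a ^ 2 ≤ 1 - θ₂ := by
    have : 0 ≤ 1 - θ₂ := by linarith
    nlinarith
  nlinarith

theorem displacementR {E : Type*} [NormedAddCommGroup E] [InnerProductSpace ℝ E]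
    (K : Subgroup G) (g : G) (σ : G →* (E ≃ₗᵢ[ℝ] E)) (v : E) (hv : ‖v‖ = 1)
    (hvK : ∀ k ∈ K, σ k v = v) (θ : ℝ)
    (hθ : ∀ x, (∀ k ∈ K, σ k x = x) → inner ℝ x (σ g v) = θ * inner ℝ x v)
    (k : G) (hk : k ∈ K) (k' : G) (hk' : k' ∈ K) :
    ‖σ (k * g * k') v - v‖ ^ 2 = 2 * (1 - θ) := by
  have hvv : inner ℝ v v = (1 : ℝ) := by
    rw [real_inner_self_eq_norm_sq, hv]; norm_num
  have h1 : inner ℝ v (σ (k * g * k') v) = θ := by
    rw [rep_mulR, rep_mulR, hvK k' hk']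
    have h2 := (σ k).inner_map_map v (σ g v)
    rw [hvK k hk] at h2
    rw [h2, hθ v hvK, hvv, mul_one]
  rw [norm_sub_sq_real, real_inner_comm, h1, LinearIsometryEquiv.norm_map, hv]
  ring

theorem rate_real (K : Subgroup G) (g : G) (hg : ∃ k ∈ K, ∃ k' ∈ K, g⁻¹ = k * g * k')
    (E F : ℕ → Type*)
    [∀ j, NormedAddCommGroup (E j)] [∀ j, InnerProductSpace ℝ (E j)] [∀ j, CompleteSpace (E j)]
    [∀ j, NormedAddCommGroup (F j)] [∀ j, InnerProductSpace ℝ (F j)]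
    (σ : ∀ j, G →* (E j ≃ₗᵢ[ℝ] E j)) (τ : ∀ j, G →* (F j ≃ₗᵢ[ℝ] F j))
    (B : ∀ j, E (j + 1) →L[ℝ] E (j + 1) →L[ℝ] F j)
    (hB : ∀ j x y, inner ℝ (B j x x) (B j y y) ≤ (inner ℝ x y) ^ 2)
    (hB1 : ∀ j x, ‖B j x x‖ = ‖x‖ ^ 2)
    (heq : ∀ j s x y, τ j s (B j x y) = B j (σ (j + 1) s x) (σ (j + 1) s y))
    (S : ∀ j, Submodule ℝ (F j)) (hS : ∀ j x, B j x x ∈ S j)
    (ι : ∀ j, E j →ₗᵢ[ℝ] F j) (hι : ∀ j s x, τ j s (ι j x) = ι j (σ j s x))
    (v : ∀ j, E j) (hvS : ∀ j, ι j (v j) ∈ S j)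
    (hv : ∀ j, ‖v j‖ = 1) (hvK : ∀ j, ∀ k ∈ K, σ j k (v j) = v j)
    (θ : ℕ → ℝ)
    (hθ : ∀ j x, (∀ k ∈ K, σ j k x = x) → inner ℝ x (σ j g (v j)) = θ j * inner ℝ x (v j))
    (κ : ℝ) (hκ : κ < 1)
    (gap : ∀ j, ∀ x ∈ S j, (∀ k ∈ K, τ j k x = x) → inner ℝ (ι j (v j)) x = 0 →
      inner ℝ x (τ j g x) ≤ κ * ‖x‖ ^ 2)
    (hlim : Tendsto θ atTop (𝓝 1)) :
    ∃ C : ℝ, 0 ≤ C ∧ (∀ j, 1 - θ j ≤ C / 2 ^ j) ∧
      ∀ j, ∀ k ∈ K, ∀ k' ∈ K, ‖σ j (k * g * k') (v j) - v j‖ ^ 2 ≤ 2 * C / 2 ^ j := by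
  have hθ1 : ∀ j, 0 ≤ 1 - θ j := by
    intro j
    have hvv : inner ℝ (v j) (v j) = (1 : ℝ) := by
      rw [real_inner_self_eq_norm_sq, hv]; norm_num
    have h1 := hθ j (v j) (hvK j)
    rw [hvv, mul_one] at h1
    have h2 : |inner ℝ (v j) (σ j g (v j))| ≤ ‖v j‖ * ‖σ j g (v j)‖ :=
      abs_real_inner_le_norm _ _
    rw [h1, LinearIsometryEquiv.norm_map, hv] at h2
    have h3 := (abs_le.1 h2).2
    linarith
  have key : ∀ j, 2 * (1 - θ (j + 1)) - (1 + 16 / (1 - κ)) * (1 - θ (j + 1)) ^ 2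
      ≤ 1 - θ j := by
    intro j
    refine second_order_real K g hg (σ (j + 1)) (τ j) (B j) (hB j) (hB1 j) (heq j) (v (j + 1))
      (hv _) (hvK _) (θ (j + 1)) (hθ _) (S j) (hS j) (ι j (v j)) (hvS j)
      (by rw [LinearIsometry.norm_map, hv])
      (fun k hk => by rw [hι, hvK j k hk]) (θ j) ?_ κ hκ (gap j)
    intro x _ hx
    obtain ⟨z, hz, h1⟩ := exists_fixed_repR K (σ j) (τ j) (ι j).toContinuousLinearMap
      (fun k _ y => hι j k y) x hx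
    have h2 : ∀ y, inner ℝ z y = inner ℝ x (ι j y) := h1
    rw [hι, ← h2, ← h2]
    exact hθ j z hz
  have hκ' : 0 < 1 - κ := by linarith
  obtain ⟨D, hD, h1⟩ := seq_rate (fun j => 1 - θ j) hθ1 (1 + 16 / (1 - κ)) (by positivity) key
    (by simpa using hlim.const_sub 1)
  refine ⟨D, hD, h1, ?_⟩
  intro j k hk k' hk'
  rw [displacementR K g (σ j) (v j) (hv j) (hvK j) (θ j) (hθ j) k hk k' hk']
  have := h1 j
  calc 2 * (1 - θ j) ≤ 2 * (D / 2 ^ j) := by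
        exact mul_le_mul_of_nonneg_left this (by norm_num)
    _ = 2 * D / 2 ^ j := by ring

end Pool.Agent.Helper7.FP
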