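import Pool.Agent.Helper7.FP.SecR
import Pool.Agent.Helper96.FP.Grp
import Pool.Agent.Helper9.CA.Kak

/-!
# Project FP (MP_0f6f3f_an), step 4: spherical averages of `SL(2, ℂ)` in an orthogonal representation

`PK = ∫ σ(k) dk`; the spherical averages `P σ(g) P` commute; an eigenvector of one average with a
gap is an eigenvector of all of them; displacement functions grow linearly.
-/

set_option autoImplicit false
set_option linter.style.haveILetI false
set_option linter.unusedSectionVars false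

open MeasureTheory Measure Filter Topology

namespace Pool.Agent.Helper7.FP

open Pool.Agent.Helper9.CA Pool.Agent.Helper96.FP

section Rep

variable {E : Type*} [NormedAddCommGroup E] [InnerProductSpace ℝ E] [CompleteSpace E]

variable [MeasurableSpace S2] [BorelSpace S2]

theorem integrable_orb {σ : S2 →* (E ≃ₗᵢ[ℝ] E)} (hc : ∀ x, Continuous fun g => σ g x)
    {ν : Measure S2} (hν : HaarOn KU ν) (x : E) (a b : S2) :
    Integrable (fun k => σ (a * k * b) x) ν := by
  haveI := hν.prob
  have h1 : Continuous fun k => σ (a * k * b) x := (hc x).comp (by fun_prop)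
  refine Integrable.of_bound h1.stronglyMeasurable.aestronglyMeasurable ‖x‖ ?_
  exact Filter.Eventually.of_forall fun k => ((σ _).norm_map x).le

theorem PK_int {σ : S2 →* (E ≃ₗᵢ[ℝ] E)} (hc : ∀ x, Continuous fun g => σ g x)
    {ν : Measure S2} (hν : HaarOn KU ν) (x : E) : PK σ KU x = ∫ k, σ k x ∂ν := by
  haveI := hν.prob
  have hint : Integrable (fun k => σ k x) ν := by
    simpa using integrable_orb hc hν x 1 1
  refine PK_unique ?_ ?_
  · intro k hk
    have e1 : σ k (∫ y, σ y x ∂ν) = ∫ y, σ k (σ y x) ∂ν :=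
      ((σ k : E ≃ₗᵢ[ℝ] E).toContinuousLinearEquiv : E →L[ℝ] E).integral_comp_comm hint |>.symm
    rw [e1]
    simp only [← rep_mulR]
    have h1 : ∫ y, σ y x ∂(ν.map fun y => k * y) = ∫ y, σ (k * y) x ∂ν :=
      integral_map (measurable_const_mul k).aemeasurable
        (hc x).stronglyMeasurable.aestronglyMeasurable
    rw [← h1, hν.left k hk]
  · intro y hy
    rw [← integral_inner hint]
    have h3 : ∫ k, inner ℝ y (σ k x) ∂ν = ∫ _ : S2, inner ℝ y x ∂ν := by
      refine integral_congr_ae ?_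
      filter_upwards [hν.supp] with k hk
      show inner ℝ y (σ k x) = inner ℝ y x
      rw [real_inner_comm, rep_innerR, hy _ (KU.inv_mem hk), real_inner_comm]
    rw [h3]
    simp

/-- translation invariance of the average in the middle -/
theorem avg_mid {ν : Measure S2} (hν : HaarOn KU ν) {F : S2 → ℝ} (hF : Continuous F) {a b : S2}
    (ha : a ∈ KU) (hb : b ∈ KU) : ∫ k, F (a * k * b) ∂ν = ∫ k, F k ∂ν := by
  have h1 : ∫ y, F (y * b) ∂(ν.map fun y => a * y) = ∫ y, F (a * y * b) ∂ν :=
    integral_map (measurable_const_mul a).aemeasurable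
      (hF.comp (continuous_mul_const b)).stronglyMeasurable.aestronglyMeasurable
  have h2 : ∫ y, F y ∂(ν.map fun y => y * b) = ∫ y, F (y * b) ∂ν :=
    integral_map (measurable_mul_const b).aemeasurable
      hF.stronglyMeasurable.aestronglyMeasurable
  rw [← h1, hν.left a ha, ← h2, hν.right b hb]

/-- **Commutativity of the spherical averages.** -/
theorem avg_comm {ν : Measure S2} (hν : HaarOn KU ν) {F : S2 → ℝ} (hF : Continuous F)
    (hl : ∀ k ∈ KU, ∀ g, F (k * g) = F g) (hr : ∀ k ∈ KU, ∀ g, F (g * k) = F g) (g g' : S2) :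
    ∫ k, F (g * k * g') ∂ν = ∫ k, F (g' * k * g) ∂ν := by
  haveI := hν.prob
  have key : ∀ r s : ℝ, 0 ≤ r → 0 ≤ s →
      ∫ k, F (aR r * k * aR s) ∂ν = ∫ k, F (aR s * k * aR r) ∂ν := by
    intro r s hr0 hs0
    have hz : ∀ t : ℝ, ∫ k, F (aR 0 * k * aR t) ∂ν = F (aR t) := by
      intro t
      have h1 : ∫ k, F (aR 0 * k * aR t) ∂ν = ∫ _ : S2, F (aR t) ∂ν := by
        refine integral_congr_ae ?_
        filter_upwards [hν.supp] with k hk
        rw [aR_zero, one_mul, hl k hk]
      rw [h1]; simp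
    have hz' : ∀ t : ℝ, ∫ k, F (aR t * k * aR 0) ∂ν = F (aR t) := by
      intro t
      have h1 : ∫ k, F (aR t * k * aR 0) ∂ν = ∫ _ : S2, F (aR t) ∂ν := by
        refine integral_congr_ae ?_
        filter_upwards [hν.supp] with k hk
        rw [aR_zero, mul_one, hr k hk]
      rw [h1]; simp
    rcases hr0.eq_or_lt with h | hr1
    · rw [← h, hz, hz']
    rcases hs0.eq_or_lt with h | hs1
    · rw [← h, hz, hz']
    have p1 := product_formula hν (F := fun g => (F g : ℂ)) (by fun_prop)
      (fun k hk g => by simp only [hl k hk g]) (fun k hk g => by simp only [hr k hk g]) r s hr0 hs0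
    have p2 := product_formula hν (F := fun g => (F g : ℂ)) (by fun_prop)
      (fun k hk g => by simp only [hl k hk g]) (fun k hk g => by simp only [hr k hk g]) s r hs0 hr0
    rw [abs_sub_comm s r, add_comm s r, ← p1] at p2
    rw [integral_complex_ofReal, integral_complex_ofReal] at p2
    have hsr := Real.sinh_pos_iff.2 hr1
    have hss := Real.sinh_pos_iff.2 hs1
    have p3 : 2 * Real.sinh s * Real.sinh r * ∫ k, F (aR s * k * aR r) ∂ν
        = 2 * Real.sinh r * Real.sinh s * ∫ k, F (aR r * k * aR s) ∂ν := by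
      exact_mod_cast p2
    have p4 : (2 * Real.sinh r * Real.sinh s) * (∫ k, F (aR r * k * aR s) ∂ν)
        = (2 * Real.sinh r * Real.sinh s) * (∫ k, F (aR s * k * aR r) ∂ν) := by
      rw [← p3]; ring
    exact mul_left_cancel₀ (by positivity) p4
  obtain ⟨a, ha, b, hb, r, hr0, hg, -⟩ := cartan g
  obtain ⟨a', ha', b', hb', s, hs0, hg', -⟩ := cartan g'
  have e1 : ∀ k, F (g * k * g') = F (aR r * (b * k * a') * aR s) := by
    intro k
    rw [hg, hg']
    have : a * aR r * b * k * (a' * aR s * b') = a * (aR r * (b * k * a') * aR s) * b' := by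
      simp only [mul_assoc]
    rw [this, hr b' hb', hl a ha]
  have e2 : ∀ k, F (g' * k * g) = F (aR s * (b' * k * a) * aR r) := by
    intro k
    rw [hg, hg']
    have : a' * aR s * b' * k * (a * aR r * b) = a' * (aR s * (b' * k * a) * aR r) * b := by
      simp only [mul_assoc]
    rw [this, hr b hb, hl a' ha']
  simp only [e1, e2]
  rw [avg_mid hν (F := fun k => F (aR r * k * aR s)) (by fun_prop) hb ha',
    avg_mid hν (F := fun k => F (aR s * k * aR r)) (by fun_prop) hb' ha]
  exact key r s hr0 hs0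

/-- the averages commute on fixed vectors -/
theorem PK_comm {σ : S2 →* (E ≃ₗᵢ[ℝ] E)} (hc : ∀ x, Continuous fun g => σ g x)
    {ν : Measure S2} (hν : HaarOn KU ν) {x y : E} (hx : x ∈ fixK σ KU) (hy : y ∈ fixK σ KU)
    (g g' : S2) : inner ℝ y (σ g (PK σ KU (σ g' x))) = inner ℝ y (σ g' (PK σ KU (σ g x))) := by
  have key : ∀ a b : S2, inner ℝ y (σ a (PK σ KU (σ b x))) = ∫ k, inner ℝ y (σ (a * k * b) x) ∂ν := by
    intro a b
    have hint : Integrable (fun k => σ k (σ b x)) ν := by
      simpa using integrable_orb hc hν (σ b x) 1 1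
    rw [PK_int hc hν]
    have e1 : σ a (∫ k, σ k (σ b x) ∂ν) = ∫ k, σ a (σ k (σ b x)) ∂ν :=
      ((σ a : E ≃ₗᵢ[ℝ] E).toContinuousLinearEquiv : E →L[ℝ] E).integral_comp_comm hint |>.symm
    rw [e1]
    simp only [← rep_mulR]
    rw [← integral_inner (by simpa [mul_assoc] using integrable_orb hc hν x a b)]
    simp only [mul_assoc]
  rw [key, key]
  refine avg_comm hν (F := fun g => inner ℝ y (σ g x)) (continuous_const.inner (hc x)) ?_ ?_ g g'
  · intro k hk g
    show inner ℝ y (σ (k * g) x) = inner ℝ y (σ g x)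
    rw [rep_mulR, real_inner_comm, rep_innerR, hy _ (KU.inv_mem hk), real_inner_comm]
  · intro k hk g
    show inner ℝ y (σ (g * k) x) = inner ℝ y (σ g x)
    rw [rep_mulR, hx k hk]

/-- an eigenvector of one average with a gap is an eigenvector of all averages -/
theorem eig_all {σ : S2 →* (E ≃ₗᵢ[ℝ] E)} (hc : ∀ x, Continuous fun g => σ g x)
    {ν : Measure S2} (hν : HaarOn KU ν) {g0 : S2} {v : E} (hv : ‖v‖ = 1)
    (hvK : ∀ k ∈ KU, σ k v = v) {θ κ : ℝ} (hκ : κ < θ)
    (hθ : ∀ x, (∀ k ∈ KU, σ k x = x) → inner ℝ x (σ g0 v) = θ * inner ℝ x v)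
    (gap : ∀ x, (∀ k ∈ KU, σ k x = x) → inner ℝ v x = 0 → inner ℝ (σ g0 x) x ≤ κ * ‖x‖ ^ 2)
    (g : S2) : PK σ KU (σ g v) = (inner ℝ v (σ g v) : ℝ) • v := by
  have hvf : v ∈ fixK σ KU := hvK
  set w : E := PK σ KU (σ g v) with hw
  have hwf : w ∈ fixK σ KU := PK_mem σ KU _
  have hvw : inner ℝ v w = inner ℝ v (σ g v) := by
    rw [hw, ← PK_inner, PK_fix hvf]
  have hAv : PK σ KU (σ g0 v) = θ • v := by
    refine PK_unique ((fixK σ KU).smul_mem _ hvf) fun y hy => ?_
    rw [hθ y hy, real_inner_smul_right]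
  -- `w` satisfies the eigenvector equation
  have hAw : ∀ y ∈ fixK σ KU, inner ℝ y (σ g0 w) = θ * inner ℝ y w := by
    intro y hy
    rw [hw, PK_comm hc hν hvf hy g0 g, hAv, map_smul, real_inner_smul_right, ← PK_inner, PK_fix hy]
  set x : E := w - (inner ℝ v (σ g v) : ℝ) • v with hx
  have hxf : x ∈ fixK σ KU := (fixK σ KU).sub_mem hwf ((fixK σ KU).smul_mem _ hvf)
  have hvx : inner ℝ v x = 0 := by
    rw [hx, inner_sub_right, real_inner_smul_right, real_inner_self_eq_norm_sq, hv, hvw]
    ring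
  have hAx : inner ℝ x (σ g0 x) = θ * inner ℝ x x := by
    have e1 : σ g0 x = σ g0 w - (inner ℝ v (σ g v) : ℝ) • σ g0 v := by
      rw [hx, map_sub, map_smul]
    rw [e1, inner_sub_right, real_inner_smul_right, hAw x hxf, hθ x hxf]
    conv_rhs => rw [hx, inner_sub_right, real_inner_smul_right]
    ring
  have h1 := gap x hxf hvx
  rw [real_inner_comm, hAx, real_inner_self_eq_norm_sq] at h1
  have h2 : ‖x‖ ^ 2 = 0 := by
    have h3 : 0 ≤ ‖x‖ ^ 2 := by positivity
    nlinarith
  have h3 : x = 0 := by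
    rwa [sq_eq_zero_iff, norm_eq_zero] at h2
  exact sub_eq_zero.1 h3

end Rep

end Pool.Agent.Helper7.FP
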