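import Pool.Agent.Helper7.FP.Unif

/-!
# Project FP (MP_0f6f3f_an), step 4, assembly (real version)

Data: orthogonal representations `σ j` (strongly continuous) on `E j` and `τ j` on `F j` of
`SL(2, ℂ)`, equivariant products `B j : E (j+1) × E (j+1) → F j` with `‖B x x‖ = ‖x‖²` and
`⟪B x x, B y y⟫ ≤ ⟪x, y⟫²`, subspaces `S j` of `F j` containing all `B x x` and the image of an
equivariant isometry `ι j : E j → F j`, unit `SU(2)`-fixed vectors `y j` with a gap `κ < 1` for one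
element `g0 ∉ SU(2)` and `⟪σ j g0 (y j), y j⟫ → 1`.
Conclusion: unit `SU(2)`-fixed eigenvectors `v j` of all spherical averages, close to `y j`, whose
displacement is `O(2 ^ (-j/2))` locally uniformly and, after multiplication by `2 ^ (j/2)`, tends to
`0` at the identity uniformly in `j`.
-/

set_option autoImplicit false
set_option linter.style.haveILetI false
set_option linter.unusedSectionVars false

open MeasureTheory Measure Filter Topology

namespace Pool.Agent.Helper7.FP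

open Pool.Agent.Helper9.CA Pool.Agent.Helper96.FP

/-- the displacement of a fixed vector is a displacement function -/
theorem disp_of_fixed {E : Type*} [NormedAddCommGroup E] [InnerProductSpace ℝ E]
    (σ : S2 →* (E ≃ₗᵢ[ℝ] E)) {v : E} (hvK : ∀ k ∈ KU, σ k v = v) :
    Disp fun g => ‖σ g v - v‖ := by
  refine ⟨fun g => norm_nonneg _, ?_, ?_, ?_⟩
  · intro g h
    have e : σ (g * h) v - v = σ g (σ h v - v) + (σ g v - v) := by
      rw [rep_mulR, map_sub]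
      abel
    show ‖σ (g * h) v - v‖ ≤ ‖σ g v - v‖ + ‖σ h v - v‖
    rw [e]
    refine (norm_add_le _ _).trans ?_
    rw [LinearIsometryEquiv.norm_map]
    linarith
  · intro k hk g
    show ‖σ (k * g) v - v‖ = ‖σ g v - v‖
    have e : σ (k * g) v - v = σ k (σ g v - v) := by
      rw [rep_mulR, map_sub, hvK k hk]
    rw [e, LinearIsometryEquiv.norm_map]
  · intro k hk g
    show ‖σ (g * k) v - v‖ = ‖σ g v - v‖
    rw [rep_mulR, hvK k hk]

section Family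

variable [MeasurableSpace S2] [BorelSpace S2]

/-- **The uniform modulus of continuity.** -/
theorem unif_modulus (E : ℕ → Type*)
    [∀ j, NormedAddCommGroup (E j)] [∀ j, InnerProductSpace ℝ (E j)] [∀ j, CompleteSpace (E j)]
    (σ : ∀ j, S2 →* (E j ≃ₗᵢ[ℝ] E j)) (hc : ∀ j x, Continuous fun g => σ j g x)
    (v : ∀ j, E j) (hv : ∀ j, ‖v j‖ = 1)
    (heig : ∀ j g, PK (σ j) KU (σ j g (v j)) = (inner ℝ (v j) (σ j g (v j)) : ℝ) • v j)
    (hgrow : ∀ R : ℝ, ∃ C : ℝ, ∀ j, ∀ g : S2, (N2 g : ℝ) ≤ R → 2 ^ j * ‖σ j g (v j) - v j‖ ^ 2 ≤ C) :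
    ∃ ω : S2 → ℝ, Tendsto ω (𝓝 1) (𝓝 0) ∧ ∀ j s, 2 ^ j * ‖σ j s (v j) - v j‖ ^ 2 ≤ ω s := by
  set μ : Measure S2 := haar with hμ
  choose CC hCC using hgrow
  set C : ℝ := max (CC 4) 0 with hC
  have hC0 : 0 ≤ C := le_max_right _ _
  have hC4 : ∀ j, ∀ g : S2, (N2 g : ℝ) ≤ 4 → 2 ^ j * ‖σ j g (v j) - v j‖ ^ 2 ≤ C :=
    fun j g hg => (hCC 4 j g hg).trans (le_max_left _ _)
  obtain ⟨J, hJ⟩ : ∃ J : ℕ, ∀ j, J ≤ j → C / 2 ^ j ≤ 1 := by
    obtain ⟨J, hJ⟩ := pow_unbounded_of_one_lt C (one_lt_two)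
    refine ⟨J, fun j hj => ?_⟩
    rw [div_le_one (by positivity)]
    refine hJ.le.trans (pow_le_pow_right₀ (by norm_num) hj)
  set I : ℝ := ∫ g, f0 g ∂μ with hI
  set A : S2 → ℝ := fun s => (2 / I * Om μ s) ^ 2 * C +
    ∑ j ∈ Finset.range J, 2 ^ j * ‖σ j s (v j) - v j‖ ^ 2 with hA
  have hN1 : (N2 (1 : S2) : ℝ) < 2 := by
    have h2 : (N2 (1 : S2) : ℝ) ^ 2 = 2 := by
      rw [N2_sq]
      have := nsq_aR 0
      rw [aR_zero, Real.cosh_zero] at this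
      linarith
    nlinarith [(N2 (1 : S2)).2]
  classical
  refine ⟨fun s => if (N2 s : ℝ) < 2 then A s else CC (N2 s), ?_, ?_⟩
  · have hAt : Tendsto A (𝓝 1) (𝓝 0) := by
      have h1 : Tendsto (fun s => (2 / I * Om μ s) ^ 2 * C) (𝓝 1) (𝓝 ((2 / I * 0) ^ 2 * C)) :=
        (((Om_tendsto μ).const_mul (2 / I)).pow 2).mul_const C
      have h2 : Tendsto (fun s : S2 => ∑ j ∈ Finset.range J, 2 ^ j * ‖σ j s (v j) - v j‖ ^ 2)
          (𝓝 1) (𝓝 (∑ j ∈ Finset.range J, 2 ^ j * ‖σ j 1 (v j) - v j‖ ^ 2)) := by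
        have h3 : Continuous fun s : S2 =>
            ∑ j ∈ Finset.range J, 2 ^ j * ‖σ j s (v j) - v j‖ ^ 2 := by
          refine continuous_finsetSum _ fun j _ => ?_
          exact continuous_const.mul (((hc j (v j)).sub continuous_const).norm.pow 2)
        exact h3.tendsto 1
      have h4 : (∑ j ∈ Finset.range J, 2 ^ j * ‖σ j 1 (v j) - v j‖ ^ 2) = 0 := by
        refine Finset.sum_eq_zero fun j _ => ?_
        have : σ j 1 (v j) = v j := by rw [map_one]; rfl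
        rw [this, sub_self, norm_zero]
        norm_num
      rw [h4] at h2
      have h5 := h1.add h2
      simpa using h5
    refine hAt.congr' ?_
    have hcn : Continuous fun s : S2 => (N2 s : ℝ) := NNReal.continuous_coe.comp continuous_N2
    filter_upwards [(hcn.tendsto 1).eventually (gt_mem_nhds hN1)] with s hs
    rw [if_pos hs]
  · intro j s
    show _ ≤ if (N2 s : ℝ) < 2 then A s else CC (N2 s)
    split_ifs with hs
    · rw [hA]
      show _ ≤ (2 / I * Om μ s) ^ 2 * C +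
        ∑ j ∈ Finset.range J, 2 ^ j * ‖σ j s (v j) - v j‖ ^ 2
      rcases lt_or_ge j J with hj | hj
      · have h1 : 2 ^ j * ‖σ j s (v j) - v j‖ ^ 2 ≤
            ∑ j ∈ Finset.range J, 2 ^ j * ‖σ j s (v j) - v j‖ ^ 2 :=
          Finset.single_le_sum (f := fun j => 2 ^ j * ‖σ j s (v j) - v j‖ ^ 2)
            (fun _ _ => by positivity) (Finset.mem_range.2 hj)
        have h2 : 0 ≤ (2 / I * Om μ s) ^ 2 * C := by positivity
        linarith
      · have hM : ∀ g : S2, (N2 g : ℝ) ≤ 4 → ‖σ j g (v j) - v j‖ ≤ Real.sqrt (C / 2 ^ j) := by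
          intro g hg
          refine Real.le_sqrt_of_sq_le ?_
          rw [le_div_iff₀ (by positivity), mul_comm]
          exact hC4 j g hg
        have hM1 : Real.sqrt (C / 2 ^ j) ≤ 1 := by
          refine Real.sqrt_le_iff.2 ⟨by norm_num, ?_⟩
          rw [one_pow]
          exact hJ j hj
        have h1 := disp_bound (hc j) (hv j) (heig j) μ _ hM hM1 s hs.le
        have h2 : ‖σ j s (v j) - v j‖ ^ 2 ≤ (2 / I * Om μ s * Real.sqrt (C / 2 ^ j)) ^ 2 :=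
          pow_le_pow_left₀ (norm_nonneg _) h1 2
        rw [mul_pow, Real.sq_sqrt (by positivity)] at h2
        have h3 : 0 ≤ ∑ j ∈ Finset.range J, 2 ^ j * ‖σ j s (v j) - v j‖ ^ 2 :=
          Finset.sum_nonneg fun _ _ => by positivity
        have h4 : 2 ^ j * ‖σ j s (v j) - v j‖ ^ 2 ≤
            2 ^ j * ((2 / I * Om μ s) ^ 2 * (C / 2 ^ j)) :=
          mul_le_mul_of_nonneg_left h2 (by positivity)
        have h5 : 2 ^ j * ((2 / I * Om μ s) ^ 2 * (C / 2 ^ j)) = (2 / I * Om μ s) ^ 2 * C := by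
          field_simp
        linarith
    · exact hCC _ j s le_rfl

/-- **Step 4, real version.** -/
theorem step4_real {g0 : S2} (hg0 : g0 ∉ KU) {ν : Measure S2} (hν : HaarOn KU ν)
    (E F : ℕ → Type*)
    [∀ j, NormedAddCommGroup (E j)] [∀ j, InnerProductSpace ℝ (E j)] [∀ j, CompleteSpace (E j)]
    [∀ j, NormedAddCommGroup (F j)] [∀ j, InnerProductSpace ℝ (F j)]
    (σ : ∀ j, S2 →* (E j ≃ₗᵢ[ℝ] E j)) (τ : ∀ j, S2 →* (F j ≃ₗᵢ[ℝ] F j))
    (hc : ∀ j x, Continuous fun g => σ j g x)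
    (B : ∀ j, E (j + 1) →L[ℝ] E (j + 1) →L[ℝ] F j)
    (hB : ∀ j x y, inner ℝ (B j x x) (B j y y) ≤ (inner ℝ x y) ^ 2)
    (hB1 : ∀ j x, ‖B j x x‖ = ‖x‖ ^ 2)
    (heq : ∀ j s x y, τ j s (B j x y) = B j (σ (j + 1) s x) (σ (j + 1) s y))
    (S : ∀ j, Submodule ℝ (F j)) (hS : ∀ j x, B j x x ∈ S j)
    (ι : ∀ j, E j →ₗᵢ[ℝ] F j) (hι : ∀ j s x, τ j s (ι j x) = ι j (σ j s x))
    (hιS : ∀ j x, ι j x ∈ S j)
    (y : ∀ j, E j) (hy : ∀ j, ‖y j‖ = 1) (hyK : ∀ j, ∀ k ∈ KU, σ j k (y j) = y j)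
    (κ : ℝ) (hκ0 : 0 ≤ κ) (hκ : κ < 1)
    (gap : ∀ j, ∀ x ∈ S j, (∀ k ∈ KU, τ j k x = x) → inner ℝ (ι j (y j)) x = 0 →
      inner ℝ (τ j g0 x) x ≤ κ * ‖x‖ ^ 2)
    (hlt : ∀ j, κ < inner ℝ (σ j g0 (y j)) (y j))
    (hlim : Tendsto (fun j => (inner ℝ (σ j g0 (y j)) (y j) : ℝ)) atTop (𝓝 1)) :
    ∃ (v : ∀ j, E j) (φ : ℕ → S2 → ℝ),
      (∀ j, ‖v j‖ = 1) ∧ (∀ j, ∀ k ∈ KU, σ j k (v j) = v j) ∧
      (∀ j g, PK (σ j) KU (σ j g (v j)) = φ j g • v j) ∧
      (∀ j g, ∫ k, σ j (k * g) (v j) ∂ν = φ j g • v j) ∧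
      (∀ R : ℝ, ∃ C : ℝ, ∀ j, ∀ g : S2, (N2 g : ℝ) ≤ R →
        2 ^ j * ‖σ j g (v j) - v j‖ ^ 2 ≤ C) ∧
      (∃ ω : S2 → ℝ, Tendsto ω (𝓝 1) (𝓝 0) ∧
        ∀ j s, 2 ^ j * ‖σ j s (v j) - v j‖ ^ 2 ≤ ω s) ∧
      Tendsto (fun j => ‖v j - y j‖) atTop (𝓝 0) ∧ (∀ j, 0 < (inner ℝ (v j) (y j) : ℝ)) ∧
      (∀ j, ∀ C : Set (E j), IsCone ℝ C → (∀ k ∈ KU, ∀ x ∈ C, σ j k x ∈ C) →
        (∀ x ∈ C, σ j g0 x ∈ C) → y j ∈ C → v j ∈ C) := by
  have hinv := inv_mem_KgK g0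
  -- the gap on `E j`
  have gapE : ∀ j x, (∀ k ∈ KU, σ j k x = x) → inner ℝ (y j) x = 0 →
      inner ℝ (σ j g0 x) x ≤ κ * ‖x‖ ^ 2 := by
    intro j x hx hyx
    have h1 := gap j (ι j x) (hιS j x) (fun k hk => by rw [hι, hx k hk])
      (by rw [LinearIsometry.inner_map_map]; exact hyx)
    rwa [hι, LinearIsometry.inner_map_map, LinearIsometry.norm_map] at h1
  have htop : ∀ j, ∃ (v : E j) (θ r : ℝ), ‖v‖ = 1 ∧ (∀ k ∈ KU, σ j k v = v) ∧
      inner ℝ (σ j g0 (y j)) (y j) ≤ θ ∧ θ ≤ 1 ∧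
      (∀ x, (∀ k ∈ KU, σ j k x = x) → inner ℝ x (σ j g0 v) = θ * inner ℝ x v) ∧
      (∀ x, (∀ k ∈ KU, σ j k x = x) → inner ℝ v x = 0 →
        inner ℝ (σ j g0 x) x ≤ κ * ‖x‖ ^ 2) ∧
      0 < r ∧ r ≤ 1 ∧ inner ℝ v (y j) = r ∧
      inner ℝ (σ j g0 (y j)) (y j) - κ ≤ (θ - κ) * r ^ 2 ∧
      ∀ C : Set (E j), IsCone ℝ C → (∀ k ∈ KU, ∀ x ∈ C, σ j k x ∈ C) →
        (∀ x ∈ C, σ j g0 x ∈ C) → y j ∈ C → v ∈ C := by
    intro j
    obtain ⟨v, θ, r, h1, h2, h3, h4, h5, h6, h7, h8, h9, h10, h11⟩ :=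
      exists_top (𝕜 := ℝ) (σ := σ j) (K := KU) (g := g0) hinv hκ0 (hy j) (hyK j)
        (fun x hx hyx => gapE j x hx hyx) (hlt j)
    exact ⟨v, θ, r, h1, h2, h3, h4, h5, h6, h7, h8, h9, h10, h11⟩
  choose v θ r hv hvK hyθ hθ1 hθ hgapv hr0 hr1 hvy hover hcone using htop
  have hκθ : ∀ j, κ < θ j := fun j => (hlt j).trans_le (hyθ j)
  have hθlim : Tendsto θ atTop (𝓝 1) :=
    tendsto_of_tendsto_of_tendsto_of_le_of_le hlim tendsto_const_nhds hyθ hθ1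
  -- the gap relative to `ι (v j)`
  have gapF : ∀ j, ∀ x ∈ S j, (∀ k ∈ KU, τ j k x = x) → inner ℝ (ι j (v j)) x = 0 →
      inner ℝ x (τ j g0 x) ≤ κ * ‖x‖ ^ 2 := by
    intro j x hxS hxK hvx
    have hιvK : ∀ k ∈ KU, τ j k (ι j (v j)) = ι j (v j) := fun k hk => by
      rw [hι, hvK j k hk]
    have hιyK : ∀ k ∈ KU, τ j k (ι j (y j)) = ι j (y j) := fun k hk => by
      rw [hι, hyK j k hk]
    -- `⟪x', τ g0 (ι v)⟫ = θ ⟪x', ι v⟫` for fixed `x'`
    have heig' : ∀ x', (∀ k ∈ KU, τ j k x' = x') →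
        inner ℝ x' (τ j g0 (ι j (v j))) = θ j * inner ℝ x' (ι j (v j)) := by
      intro x' hx'
      obtain ⟨z, hz, h1⟩ := exists_fixed_repR KU (σ j) (τ j) (ι j).toContinuousLinearMap
        (fun k _ y => hι j k y) x' hx'
      have h2 : ∀ y, inner ℝ z y = inner ℝ x' (ι j y) := h1
      rw [hι, ← h2, ← h2]
      exact hθ j z hz
    set a : ℝ := -(inner ℝ (ι j (y j)) x) / r j with ha
    set z : F j := x + a • ι j (v j) with hz
    have hzS : z ∈ S j := (S j).add_mem hxS ((S j).smul_mem _ (hιS j _))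
    have hzK : ∀ k ∈ KU, τ j k z = z := by
      intro k hk
      rw [hz, map_add, map_smul, hxK k hk, hιvK k hk]
    have hyz : inner ℝ (ι j (y j)) z = 0 := by
      have hyv : inner ℝ (y j) (v j) = r j := by rw [real_inner_comm, hvy j]
      have := (hr0 j).ne'
      rw [hz, inner_add_right, real_inner_smul_right, LinearIsometry.inner_map_map, hyv, ha]
      field_simp
      ring
    have h1 := gap j z hzS hzK hyz
    have hvvn : inner ℝ (ι j (v j)) (ι j (v j)) = (1 : ℝ) := by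
      rw [LinearIsometry.inner_map_map, real_inner_self_eq_norm_sq, hv]; norm_num
    have hxv : inner ℝ x (ι j (v j)) = 0 := by rw [real_inner_comm, hvx]
    have hnz : ‖z‖ ^ 2 = ‖x‖ ^ 2 + a ^ 2 := by
      rw [← real_inner_self_eq_norm_sq, ← real_inner_self_eq_norm_sq, hz]
      simp only [inner_add_left, inner_add_right, real_inner_smul_left, real_inner_smul_right,
        hvx, hxv, hvvn]
      ring
    have hsym : inner ℝ (τ j g0 x) (ι j (v j)) = inner ℝ x (τ j g0 (ι j (v j))) :=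
      inv_double (𝕜 := ℝ) hinv hxK hιvK
    have h2 : inner ℝ (τ j g0 (ι j (v j))) x = inner ℝ x (τ j g0 (ι j (v j))) :=
      real_inner_comm _ _
    have h3 : inner ℝ (τ j g0 (ι j (v j))) (ι j (v j)) = θ j := by
      rw [real_inner_comm, heig' _ hιvK, hvvn, mul_one]
    have hQz : inner ℝ (τ j g0 z) z = inner ℝ (τ j g0 x) x + a ^ 2 * θ j := by
      rw [hz, map_add, map_smul]
      simp only [inner_add_left, inner_add_right, real_inner_smul_left, real_inner_smul_right,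
        hsym, h2, h3, heig' x hxK, hxv]
      ring
    rw [hQz, hnz] at h1
    have h4 : 0 ≤ a ^ 2 * (θ j - κ) := mul_nonneg (sq_nonneg _) (sub_nonneg.2 (hκθ j).le)
    rw [real_inner_comm]
    nlinarith
  obtain ⟨C0, hC00, -, hdisp⟩ := rate_real KU g0 hinv E F σ τ B hB hB1 heq S hS ι hι v
    (fun j => hιS j _) hv hvK θ hθ κ hκ gapF hθlim
  have hD0 : ∀ j, 2 ^ j * ‖σ j g0 (v j) - v j‖ ^ 2 ≤ 2 * C0 := by
    intro j
    have h1 := hdisp j 1 KU.one_mem 1 KU.one_mem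
    rw [one_mul, mul_one, le_div_iff₀ (by positivity)] at h1
    linarith
  have heig : ∀ j g, PK (σ j) KU (σ j g (v j)) = (inner ℝ (v j) (σ j g (v j)) : ℝ) • v j :=
    fun j g => eig_all (hc j) hν (hv j) (hvK j) (hκθ j) (hθ j) (hgapv j) g
  have hgrow : ∀ R : ℝ, ∃ C : ℝ, ∀ j, ∀ g : S2, (N2 g : ℝ) ≤ R →
      2 ^ j * ‖σ j g (v j) - v j‖ ^ 2 ≤ C := by
    intro R
    obtain ⟨n, hn0, hn⟩ := growth hg0 R
    refine ⟨n ^ 2 * (2 * C0), fun j g hg => ?_⟩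
    have h1 := hn _ (disp_of_fixed (σ j) (hvK j)) g hg
    have h2 : ‖σ j g (v j) - v j‖ ^ 2 ≤ (n * ‖σ j g0 (v j) - v j‖) ^ 2 :=
      pow_le_pow_left₀ (norm_nonneg _) h1 2
    calc 2 ^ j * ‖σ j g (v j) - v j‖ ^ 2 ≤ 2 ^ j * (n * ‖σ j g0 (v j) - v j‖) ^ 2 :=
          mul_le_mul_of_nonneg_left h2 (by positivity)
      _ = n ^ 2 * (2 ^ j * ‖σ j g0 (v j) - v j‖ ^ 2) := by ring
      _ ≤ n ^ 2 * (2 * C0) := mul_le_mul_of_nonneg_left (hD0 j) (by positivity)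
  refine ⟨v, fun j g => inner ℝ (v j) (σ j g (v j)), hv, hvK, heig, ?_, hgrow,
    unif_modulus E σ hc v hv heig hgrow, ?_, ?_, hcone⟩
  · intro j g
    have h1 := PK_int (hc j) hν (σ j g (v j))
    rw [heig] at h1
    show ∫ k, σ j (k * g) (v j) ∂ν = (inner ℝ (v j) (σ j g (v j)) : ℝ) • v j
    rw [h1]
    simp only [rep_mulR]
  · -- `‖v - y‖² = 2 - 2 r`
    have hr2 : Tendsto (fun j => r j ^ 2) atTop (𝓝 1) := by
      have h1 : Tendsto (fun j => ((inner ℝ (σ j g0 (y j)) (y j) : ℝ) - κ) / (1 - κ)) atTop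
          (𝓝 ((1 - κ) / (1 - κ))) := (hlim.sub_const κ).div_const _
      rw [div_self (by linarith : (1 - κ) ≠ 0)] at h1
      refine tendsto_of_tendsto_of_tendsto_of_le_of_le h1 tendsto_const_nhds ?_ ?_
      · intro j
        show ((inner ℝ (σ j g0 (y j)) (y j) : ℝ) - κ) / (1 - κ) ≤ r j ^ 2
        rw [div_le_iff₀ (by linarith)]
        refine (hover j).trans ?_
        have : (θ j - κ) * r j ^ 2 ≤ (1 - κ) * r j ^ 2 :=
          mul_le_mul_of_nonneg_right (by linarith [hθ1 j]) (sq_nonneg _)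
        linarith
      · intro j
        show r j ^ 2 ≤ 1
        have := hr0 j
        have := hr1 j
        nlinarith
    have hn : ∀ j, ‖v j - y j‖ ≤ Real.sqrt (2 * (1 - r j ^ 2)) := by
      intro j
      refine Real.le_sqrt_of_sq_le ?_
      rw [norm_sub_sq_real, hv, hy, hvy]
      have h1 := hr0 j
      have h2 := hr1 j
      nlinarith
    have h3 : Tendsto (fun j => Real.sqrt (2 * (1 - r j ^ 2))) atTop (𝓝 0) := by
      have h4 : Tendsto (fun j => Real.sqrt (2 * (1 - r j ^ 2))) atTop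
          (𝓝 (Real.sqrt (2 * (1 - 1)))) := ((hr2.const_sub 1).const_mul 2).sqrt
      simpa using h4
    exact squeeze_zero (fun j => norm_nonneg _) hn h3
  · intro j
    rw [hvy]
    exact hr0 j

end Family

end Pool.Agent.Helper7.FP
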