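import Pool.Agent.Helper7.FP.Sph
import Pool.Agent.Helper7.FP.Grow

/-!
# Project FP (MP_0f6f3f_an), step 4: uniform continuity of the displacement at the identity

For an approximately invariant `SU(2)`-fixed vector `v` which is an eigenvector of all spherical
averages, the displacement `‖σ(s) v - v‖` is controlled for `s → 1` by its maximum on a fixed ball,
with a modulus which does not depend on the representation.
-/

set_option autoImplicit false
set_option linter.style.haveILetI false
set_option linter.unusedSectionVars false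

open MeasureTheory Measure Filter Topology

namespace Pool.Agent.Helper7.FP

open Pool.Agent.Helper9.CA Pool.Agent.Helper96.FP

/-- a biinvariant bump function -/
noncomputable def f0 (g : S2) : ℝ := max 0 (3 - nsq g.1)

theorem continuous_nsq : Continuous fun g : S2 => nsq g.1 := by
  have h1 : (fun g : S2 => nsq g.1) = fun g : S2 => (N2 g : ℝ) ^ 2 := by
    ext g; rw [N2_sq]
  rw [h1]
  exact (NNReal.continuous_coe.comp continuous_N2).pow 2

theorem continuous_f0 : Continuous f0 := by
  unfold f0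
  exact continuous_const.max (continuous_const.sub continuous_nsq)

theorem f0_nonneg (g : S2) : 0 ≤ f0 g := le_max_left _ _

theorem f0_le (g : S2) : f0 g ≤ 1 := by
  unfold f0
  have := nsq_ge g
  exact max_le (by norm_num) (by linarith)

theorem f0_one : f0 1 = 1 := by
  have h : nsq (1 : S2).1 = 2 := by
    have := nsq_aR 0
    rw [aR_zero, Real.cosh_zero] at this
    linarith
  unfold f0
  rw [h]
  norm_num

theorem f0_left {k : S2} (hk : k ∈ KU) (g : S2) : f0 (k * g) = f0 g := by
  unfold f0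
  have : nsq (k * g).1 = nsq g.1 := nsq_unitary_mul hk g.1
  rw [this]

theorem f0_zero {g : S2} (h : 3 ≤ nsq g.1) : f0 g = 0 := by
  unfold f0
  exact max_eq_left (by linarith)

theorem f0_far {g : S2} (h : (4 : ℝ) < N2 g) : f0 g = 0 := by
  apply f0_zero
  rw [← N2_sq]
  nlinarith

theorem f0_far_mul {s g : S2} (hs : (N2 s : ℝ) ≤ 2) (h : (4 : ℝ) < N2 g) : f0 (s⁻¹ * g) = 0 := by
  by_contra h0
  have h1 : nsq (s⁻¹ * g).1 < 3 := by
    by_contra h2
    exact h0 (f0_zero (not_lt.1 h2))
  rw [← N2_sq] at h1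
  have h2 : (N2 (s⁻¹ * g) : ℝ) < 2 := by
    have : (0 : ℝ) ≤ N2 (s⁻¹ * g) := (N2 _).2
    nlinarith
  have h3 : (N2 g : ℝ) ≤ N2 s * N2 (s⁻¹ * g) := by
    have := N2_mul s (s⁻¹ * g)
    rw [mul_inv_cancel_left] at this
    exact_mod_cast this
  have h4 : (N2 s : ℝ) * N2 (s⁻¹ * g) ≤ 2 * 2 :=
    mul_le_mul hs h2.le (N2 _).2 (by norm_num)
  linarith

theorem isCompact_ball' (R : ℝ) : IsCompact {g : S2 | (N2 g : ℝ) ≤ R} := by
  have h := isCompact_ball (Real.toNNReal R)
  refine h.of_isClosed_subset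
    (isClosed_le (NNReal.continuous_coe.comp continuous_N2) continuous_const) ?_
  intro g hg
  show N2 g ≤ _
  rw [← NNReal.coe_le_coe]
  exact (show (N2 g : ℝ) ≤ R from hg).trans (Real.le_coe_toNNReal R)

theorem hasCompactSupport_f0 : HasCompactSupport f0 := by
  refine HasCompactSupport.intro (isCompact_ball' 4) fun g hg => ?_
  exact f0_far (not_le.1 hg)

variable [MeasurableSpace S2] [BorelSpace S2]

theorem f0_int (μ : Measure S2) [μ.IsHaarMeasure] : Integrable f0 μ :=
  continuous_f0.integrable_of_hasCompactSupport hasCompactSupport_f0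

theorem f0_pos (μ : Measure S2) [μ.IsHaarMeasure] : 0 < ∫ g, f0 g ∂μ := by
  refine continuous_f0.integral_pos_of_hasCompactSupport_nonneg_nonzero hasCompactSupport_f0
    f0_nonneg (x := 1) ?_
  rw [f0_one]
  exact one_ne_zero

/-- the `L¹` modulus of continuity of the bump function -/
noncomputable def Om (μ : Measure S2) (s : S2) : ℝ := ∫ g, |f0 (s⁻¹ * g) - f0 g| ∂μ

theorem Om_tendsto (μ : Measure S2) [μ.IsHaarMeasure] : Tendsto (Om μ) (𝓝 1) (𝓝 0) := by
  have h0 : Om μ 1 = 0 := by
    unfold Om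
    simp
  rw [← h0]
  unfold Om
  refine tendsto_integral_filter_of_dominated_convergence
    (Set.indicator {g : S2 | (N2 g : ℝ) ≤ 4} fun _ => (2 : ℝ)) ?_ ?_ ?_ ?_
  · refine Eventually.of_forall fun s => ?_
    have : Continuous fun g => |f0 (s⁻¹ * g) - f0 g| :=
      ((continuous_f0.comp (continuous_const_mul _)).sub continuous_f0).abs
    exact this.stronglyMeasurable.aestronglyMeasurable
  · have h1 : ∀ᶠ s : S2 in 𝓝 1, (N2 s : ℝ) < 2 := by
      have hc : Continuous fun s : S2 => (N2 s : ℝ) := NNReal.continuous_coe.comp continuous_N2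
      refine (hc.tendsto 1).eventually (gt_mem_nhds ?_)
      have h2 : (N2 (1 : S2) : ℝ) ^ 2 = 2 := by
        rw [N2_sq]
        have := nsq_aR 0
        rw [aR_zero, Real.cosh_zero] at this
        linarith
      nlinarith [(N2 (1 : S2)).2]
    filter_upwards [h1] with s hs
    refine Eventually.of_forall fun g => ?_
    by_cases hg : (N2 g : ℝ) ≤ 4
    · rw [Set.indicator_of_mem (by exact hg), Real.norm_eq_abs, abs_abs]
      have a1 := f0_nonneg (s⁻¹ * g)
      have a2 := f0_le (s⁻¹ * g)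
      have a3 := f0_nonneg g
      have a4 := f0_le g
      rw [abs_le]
      constructor <;> linarith
    · rw [Set.indicator_of_notMem (by exact hg), f0_far (not_le.1 hg), f0_far_mul hs.le (not_le.1 hg)]
      simp
  · refine (integrable_indicator_iff ?_).2 ?_
    · exact (isCompact_ball' 4).isClosed.measurableSet
    · exact integrableOn_const (isCompact_ball' 4).measure_lt_top.ne
  · refine Eventually.of_forall fun g => ?_
    have : Continuous fun s : S2 => |f0 (s⁻¹ * g) - f0 g| :=
      ((continuous_f0.comp (by fun_prop)).sub continuous_const).abs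
    have h1 := this.tendsto 1
    exact h1

section Rep

variable {E : Type*} [NormedAddCommGroup E] [InnerProductSpace ℝ E] [CompleteSpace E]

theorem disp_bound {σ : S2 →* (E ≃ₗᵢ[ℝ] E)} (hc : ∀ x, Continuous fun g => σ g x)
    {v : E} (hv : ‖v‖ = 1)
    (heig : ∀ g, PK σ KU (σ g v) = (inner ℝ v (σ g v) : ℝ) • v)
    (μ : Measure S2) [μ.IsHaarMeasure] (M : ℝ)
    (hM : ∀ g : S2, (N2 g : ℝ) ≤ 4 → ‖σ g v - v‖ ≤ M) (hM1 : M ≤ 1) (s : S2)
    (hs : (N2 s : ℝ) ≤ 2) :
    ‖σ s v - v‖ ≤ 2 / (∫ g, f0 g ∂μ) * Om μ s * M := by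
  have hI := f0_pos μ
  have hM0 : 0 ≤ M := (norm_nonneg _).trans (hM 1 (by
    have h2 : (N2 (1 : S2) : ℝ) ^ 2 = 2 := by
      rw [N2_sq]
      have := nsq_aR 0
      rw [aR_zero, Real.cosh_zero] at this
      linarith
    nlinarith [(N2 (1 : S2)).2]))
  -- integrability
  have hci : ∀ t : S2, Integrable (fun g => f0 (t * g) • σ g v) μ := by
    intro t
    refine Continuous.integrable_of_hasCompactSupport
      ((continuous_f0.comp (continuous_const_mul t)).smul (hc v)) ?_
    have h1 : HasCompactSupport fun g => f0 (t * g) :=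
      hasCompactSupport_f0.comp_homeomorph (Homeomorph.mulLeft t)
    exact h1.smul_right
  have hcf : ∀ t : S2, Integrable (fun g => f0 (t * g)) μ := by
    intro t
    refine Continuous.integrable_of_hasCompactSupport
      (continuous_f0.comp (continuous_const_mul t)) ?_
    exact hasCompactSupport_f0.comp_homeomorph (Homeomorph.mulLeft t)
  have hci1 : Integrable (fun g => f0 g • σ g v) μ := by simpa using hci 1
  set z : E := ∫ g, f0 g • σ g v ∂μ with hz
  have htr : ∀ t : S2, σ t z = ∫ g, f0 (t⁻¹ * g) • σ g v ∂μ := by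
    intro t
    have e1 : σ t z = ∫ g, σ t (f0 g • σ g v) ∂μ :=
      ((σ t : E ≃ₗᵢ[ℝ] E).toContinuousLinearEquiv : E →L[ℝ] E).integral_comp_comm hci1 |>.symm
    have e2 : ∫ g, f0 (t⁻¹ * (t * g)) • σ (t * g) v ∂μ = ∫ g, f0 (t⁻¹ * g) • σ g v ∂μ :=
      integral_mul_left_eq_self (μ := μ) (fun g => f0 (t⁻¹ * g) • σ g v) t
    rw [e1, ← e2]
    refine integral_congr_ae (Eventually.of_forall fun g => ?_)
    show σ t (f0 g • σ g v) = f0 (t⁻¹ * (t * g)) • σ (t * g) v
    rw [map_smul, inv_mul_cancel_left, rep_mulR]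
  have hzf : z ∈ fixK σ KU := by
    intro k hk
    rw [htr, hz]
    refine integral_congr_ae (Eventually.of_forall fun g => ?_)
    show f0 (k⁻¹ * g) • σ g v = f0 g • σ g v
    rw [f0_left (KU.inv_mem hk)]
  set m : ℝ := ∫ g, f0 g * inner ℝ v (σ g v) ∂μ with hm
  have hzm : z = m • v := by
    have e1 : PK σ KU z = ∫ g, PK σ KU (f0 g • σ g v) ∂μ :=
      (PK σ KU).integral_comp_comm hci1 |>.symm
    rw [PK_fix hzf] at e1
    rw [e1, hm, ← integral_smul_const]
    refine integral_congr_ae (Eventually.of_forall fun g => ?_)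
    show PK σ KU (f0 g • σ g v) = (f0 g * inner ℝ v (σ g v)) • v
    rw [map_smul, heig, smul_smul]
  -- lower bound of `m`
  have hφ : ∀ g : S2, (N2 g : ℝ) ≤ 4 → 1 / 2 ≤ inner ℝ v (σ g v) := by
    intro g hg
    have h1 := hM g hg
    have h2 := norm_sub_sq_real (σ g v) v
    rw [LinearIsometryEquiv.norm_map, hv, real_inner_comm] at h2
    have h3 : ‖σ g v - v‖ ^ 2 ≤ 1 := by
      have := norm_nonneg (σ g v - v)
      nlinarith
    linarith
  have hmI : (∫ g, f0 g ∂μ) / 2 ≤ m := by
    rw [hm, ← integral_div]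
    refine integral_mono ((f0_int μ).div_const 2) ?_ ?_
    · refine Continuous.integrable_of_hasCompactSupport
        (continuous_f0.mul (continuous_const.inner (hc v))) hasCompactSupport_f0.mul_right
    · intro g
      show f0 g / 2 ≤ f0 g * inner ℝ v (σ g v)
      by_cases hg : (N2 g : ℝ) ≤ 4
      · have := hφ g hg
        have := f0_nonneg g
        nlinarith
      · rw [f0_far (not_le.1 hg)]
        simp
  have hm0 : 0 < m := by linarith
  -- the main identity
  have hmain : m • (σ s v - v) = ∫ g, (f0 (s⁻¹ * g) - f0 g) • (σ g v - v) ∂μ := by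
    have e1 : m • (σ s v - v) = σ s z - z := by
      rw [hzm, map_smul, smul_sub]
    have e2 : ∫ g, (f0 (s⁻¹ * g) - f0 g) ∂μ = 0 := by
      rw [integral_sub (hcf s⁻¹) (f0_int μ), integral_mul_left_eq_self (μ := μ) f0 s⁻¹, sub_self]
    have e3 : ∫ g, (f0 (s⁻¹ * g) - f0 g) • v ∂μ = 0 := by
      rw [integral_smul_const, e2, zero_smul]
    have e4 : ∫ g, (f0 (s⁻¹ * g) - f0 g) • σ g v ∂μ = σ s z - z := by
      rw [htr, hz, ← integral_sub (hci s⁻¹) hci1]
      simp only [sub_smul]
    have i1 : Integrable (fun g => (f0 (s⁻¹ * g) - f0 g) • σ g v) μ := by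
      simp only [sub_smul]
      exact (hci s⁻¹).sub hci1
    have i2 : Integrable (fun g => (f0 (s⁻¹ * g) - f0 g) • v) μ :=
      ((hcf s⁻¹).sub (f0_int μ)).smul_const v
    simp only [smul_sub (_ : ℝ) (_ : E) v]
    rw [integral_sub i1 i2, e3, sub_zero, e4, hzm, map_smul]
  have hbd : m * ‖σ s v - v‖ ≤ Om μ s * M := by
    have h1 : m * ‖σ s v - v‖ = ‖m • (σ s v - v)‖ := by
      rw [norm_smul, Real.norm_eq_abs, abs_of_pos hm0]
    rw [h1, hmain, Om, ← integral_mul_const]
    refine norm_integral_le_of_norm_le ?_ (Eventually.of_forall fun g => ?_)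
    · exact (((hcf s⁻¹).sub (f0_int μ)).abs).mul_const M
    · rw [norm_smul, Real.norm_eq_abs]
      by_cases hg : (N2 g : ℝ) ≤ 4
      · exact mul_le_mul_of_nonneg_left (hM g hg) (abs_nonneg _)
      · rw [f0_far (not_le.1 hg), f0_far_mul hs (not_le.1 hg)]
        simp
  have hOm0 : 0 ≤ Om μ s := integral_nonneg fun g => abs_nonneg _
  have h2 : (∫ g, f0 g ∂μ) / 2 * ‖σ s v - v‖ ≤ Om μ s * M :=
    (mul_le_mul_of_nonneg_right hmI (norm_nonneg _)).trans hbd
  have e5 : 2 / (∫ g, f0 g ∂μ) * Om μ s * M = Om μ s * M / ((∫ g, f0 g ∂μ) / 2) := by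
    field_simp
  rw [e5, le_div_iff₀ (by positivity)]
  linarith

end Rep

end Pool.Agent.Helper7.FP
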